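import Mathlib

/-! Frames attached to one character, and the margin inequalities. -/

set_option autoImplicit false

namespace Pool.Agent.P.MP_c2263a_gt.All

open Finset

/-- the infinitesimal rotation about the axis `p` -/
def Jm (p a b : Fin 3) : ℝ :=
  (if a = p + 1 ∧ b = p + 2 then 1 else 0) - if a = p + 2 ∧ b = p + 1 then 1 else 0

/-- the squared length of a row of the cross block with axis `r` -/
def dd (N : Fin 3 → Fin 3 → ℝ) (r a : Fin 3) : ℝ :=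
  N (r + 1) a * (∑ c, N (r + 2) c) + N (r + 2) a * (∑ c, N (r + 1) c) - 2 * N (r + 1) a * N (r + 2) a

/-- the margin -/
def mg (N : Fin 3 → Fin 3 → ℝ) (s a : Fin 3) : ℝ := dd N (s + 1) a + dd N (s + 2) a - dd N s a

/-- the first order part of the margin at the first diagonal entry -/
def gq (Q K : Fin 3 → ℝ) : ℝ := Q 0 * (Q 1 - Q 2) + K 1 - K 2

/-- a frame of type `π` -/
structure Good (ε : ℝ) (π : Fin 3 → Fin 3) (Q K : Fin 3 → ℝ) (U W N : Fin 3 → Fin 3 → ℝ) : Prop where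
  gram : ∀ p a b, U p a * U p b + K p * (W p a * W p b) = if a = b then N p a else 0
  wedge : ∀ p a b, K p = 0 ∨ U p a * W p b - W p a * U p b = Jm p a b
  col : ∀ a, ∑ p, N p a = Q a
  nonneg : ∀ p a, 0 ≤ N p a
  surj : ∀ a, ∃ p, π p = a
  big : ∀ p, Q (π p) - ε ≤ N p (π p)
  row : ∀ p, ∑ a, N p a ≤ Q (π p) + ε

theorem fix3 {c ε Q1 Q2 Q3 K1 K2 K3 : ℝ} (c0 : 2 ≤ c) (ε1 : ε ≤ 1)
    (q1 : c ≤ Q1) (q2 : c ≤ Q2) (q3 : c ≤ Q3) (k1 : 0 ≤ K1) (k2 : 0 ≤ K2) (k3 : 0 ≤ K3)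
    (l1 : K1 ≤ ε * (c - 1)) (l2 : K2 ≤ ε * (c - 1)) (l3 : K3 ≤ ε * (c - 1)) :
    ∃ y1 y2 y3 : ℝ, c - 1 ≤ y1 ∧ c - 1 ≤ y2 ∧ c - 1 ≤ y3 ∧
      y1 + K1 / y2 = Q1 ∧ y2 + K2 / y3 = Q2 ∧ y3 + K3 / y1 = Q3 := by
  have c1 : 0 < c - 1 := by linarith
  let φ : ℝ → ℝ → ℝ → ℝ := fun Q K y => Q - K / max y (c - 1)
  have hc : ∀ Q K, Continuous (φ Q K) := fun Q K =>
    continuous_const.sub (continuous_const.div (continuous_id.max continuous_const)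
      fun y => (lt_max_of_lt_right c1).ne')
  have hb : ∀ Q K y, c ≤ Q → 0 ≤ K → K ≤ ε * (c - 1) → c - 1 ≤ φ Q K y ∧ φ Q K y ≤ Q := by
    intro Q K y h1 h2 h3
    have m0 : 0 < max y (c - 1) := lt_max_of_lt_right c1
    have m1 : K / max y (c - 1) ≤ 1 := by
      rw [div_le_iff₀ m0]
      nlinarith [le_max_right y (c - 1)]
    have m2 : 0 ≤ K / max y (c - 1) := by positivity
    constructor <;> simp only [φ] <;> linarith
  obtain ⟨y, hy, e⟩ := exists_mem_Icc_isFixedPt (a := c - 1) (b := Q1)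
    (((hc Q1 K1).comp ((hc Q2 K2).comp (hc Q3 K3))).continuousOn) (by linarith)
    (hb _ _ _ q1 k1 l1).1 (hb _ _ _ q1 k1 l1).2
  have b3 := (hb _ _ y q3 k3 l3).1
  have b2 := (hb _ _ (φ Q3 K3 y) q2 k2 l2).1
  have e' : φ Q1 K1 (φ Q2 K2 (φ Q3 K3 y)) = y := e
  refine ⟨y, φ Q2 K2 (φ Q3 K3 y), φ Q3 K3 y, hy.1, b2, b3, ?_, ?_, ?_⟩
  · generalize φ Q2 K2 (φ Q3 K3 y) = w at b2 e'
    simp only [φ, max_eq_left b2] at e'
    linarith
  · generalize φ Q3 K3 y = w at b3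
    simp only [φ, max_eq_left b3]
    ring
  · simp only [φ, max_eq_left hy.1]
    ring

theorem typeAB {ε c : ℝ} {Q K : Fin 3 → ℝ} (τ : Fin 3) (e : ℝ) (hτ : τ = 1 ∧ e = 1 ∨ τ = 2 ∧ e = -1)
    (c0 : 0 < c) (K0 : ∀ p, 0 ≤ K p) (K1 : ∀ p, K p ≤ ε * c) (y : Fin 3 → ℝ) (y0 : ∀ p, c ≤ y p)
    (hy : ∀ p, y p + K (p + τ + τ) / y (p + τ + τ) = Q (p + τ)) :
    ∃ U W N, Good ε (· + τ) Q K U W N ∧ mg N 0 0 =
      e * gq Q K + 2 * Q 0 * (K 0 / y 0) - 2 * (K 1 / y 1) * (K 2 / y 2) := by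
  have y1 : ∀ p, 0 < y p := fun p => c0.trans_le (y0 p)
  have x0 : ∀ p, 0 ≤ K p / y p := fun p => div_nonneg (K0 p) (y1 p).le
  have ε0 : 0 ≤ ε := nonneg_of_mul_nonneg_left ((K0 0).trans (K1 0)) c0
  have x1 : ∀ p, K p / y p ≤ ε := fun p => by
    rw [div_le_iff₀ (y1 p)]
    exact (K1 p).trans (mul_le_mul_of_nonneg_left (y0 p) ε0)
  obtain ⟨u, u0, hu⟩ : ∃ u : Fin 3 → ℝ, (∀ p, u p ≠ 0) ∧ ∀ p, y p = u p * u p :=
    ⟨fun p => √(y p), fun p => (Real.sqrt_pos.2 (y1 p)).ne',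
      fun p => (Real.mul_self_sqrt (y1 p).le).symm⟩
  have v0 := u0 0
  have v1 := u0 1
  have v2 := u0 2
  have h0 := hy 0
  have h1 := hy 1
  have h2 := hy 2
  refine ⟨fun p a => if a = p + τ then u p else 0, fun p a => if a = p + τ + τ then e / u p else 0,
    fun p a => if a = p + τ then y p else if a = p + τ + τ then K p / y p else 0,
    ⟨fun p a b => ?_, fun p a b => Or.inr ?_, fun a => ?_, fun p a => ?_,
    fun a => ⟨a - τ, sub_add_cancel _ _⟩,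
    fun p => ?_, fun p => ?_⟩, ?_⟩
  · rw [hu p]
    rcases hτ with ⟨rfl, rfl⟩ | ⟨rfl, rfl⟩ <;> fin_cases p <;> fin_cases a <;> fin_cases b <;>
      simp <;> field_simp
  · rcases hτ with ⟨rfl, rfl⟩ | ⟨rfl, rfl⟩ <;> fin_cases p <;> fin_cases a <;> fin_cases b <;>
      simp [Jm] <;> field_simp
  · rcases hτ with ⟨rfl, rfl⟩ | ⟨rfl, rfl⟩ <;> fin_cases a <;>
      simp [Fin.sum_univ_three] at h0 h1 h2 ⊢ <;> linarith
  · split_ifs
    exacts [(y1 p).le, x0 p, le_rfl]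
  · simp only [if_true]
    linarith [hy p, x1 (p + τ + τ)]
  · have : ∑ a, (if a = p + τ then y p else if a = p + τ + τ then K p / y p else 0) =
        y p + K p / y p := by
      rcases hτ with ⟨rfl, rfl⟩ | ⟨rfl, rfl⟩ <;> fin_cases p <;> simp [Fin.sum_univ_three, add_comm]
    rw [this]
    linarith [hy p, x1 p, x0 (p + τ + τ)]
  · have k1 := mul_div_cancel₀ (K 1) (y1 1).ne'
    have k2 := mul_div_cancel₀ (K 2) (y1 2).ne'
    rcases hτ with ⟨rfl, rfl⟩ | ⟨rfl, rfl⟩ <;> simp [mg, dd, gq, Fin.sum_univ_three] at h0 h1 h2 ⊢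
    · rw [← h0, ← h1, ← h2]
      linear_combination k1 - k2
    · rw [← h0, ← h1, ← h2]
      linear_combination k2 - k1

theorem good_AB {ε c : ℝ} (c0 : 2 ≤ c) (ε1 : ε ≤ 1) (τ : Fin 3) (e : ℝ)
    (hτ : τ = 1 ∧ e = 1 ∨ τ = 2 ∧ e = -1) (Q K : Fin 3 → ℝ) (hQ : ∀ a, c ≤ Q a)
    (hK : ∀ p, 0 ≤ K p ∧ K p ≤ ε * (c - 1)) : ∃ U W N, Good ε (· + τ) Q K U W N ∧
      ∃ y : Fin 3 → ℝ, (∀ p, c - 1 ≤ y p) ∧ y 0 ≤ Q τ ∧
        mg N 0 0 = e * gq Q K + 2 * Q 0 * (K 0 / y 0) - 2 * (K 1 / y 1) * (K 2 / y 2) := by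
  have c1 : 0 < c - 1 := by linarith
  rcases hτ with ⟨rfl, rfl⟩ | ⟨rfl, rfl⟩
  · obtain ⟨y1, y2, y3, a1, a2, a3, b1, b2, b3⟩ := fix3 c0 ε1 (hQ 0) (hQ 2) (hQ 1) (hK 1).1 (hK 0).1
      (hK 2).1 (hK 1).2 (hK 0).2 (hK 2).2
    have a4 : ∀ p, c - 1 ≤ ![y3, y2, y1] p := fun p => by fin_cases p <;> assumption
    obtain ⟨U, W, N, h1, h2⟩ := typeAB 1 1 (Or.inl ⟨rfl, rfl⟩) c1 (fun p => (hK p).1)
      (fun p => (hK p).2) ![y3, y2, y1] a4 fun p => by fin_cases p <;> simpa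
    refine ⟨U, W, N, h1, _, a4, ?_, h2⟩
    have := div_nonneg (hK 2).1 (c1.le.trans a1)
    show y3 ≤ Q 1
    linarith
  · obtain ⟨y1, y2, y3, a1, a2, a3, b1, b2, b3⟩ := fix3 c0 ε1 (hQ 0) (hQ 1) (hQ 2) (hK 2).1 (hK 0).1
      (hK 1).1 (hK 2).2 (hK 0).2 (hK 1).2
    have a4 : ∀ p, c - 1 ≤ ![y3, y1, y2] p := fun p => by fin_cases p <;> assumption
    obtain ⟨U, W, N, h1, h2⟩ := typeAB 2 (-1) (Or.inr ⟨rfl, rfl⟩) c1 (fun p => (hK p).1)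
      (fun p => (hK p).2) ![y3, y1, y2] a4 fun p => by fin_cases p <;> simpa
    refine ⟨U, W, N, h1, _, a4, ?_, h2⟩
    have := div_nonneg (hK 1).1 (c1.le.trans a1)
    show y3 ≤ Q 2
    linarith

theorem good_exists {ε c : ℝ} (c0 : 2 ≤ c) (ε0 : 0 ≤ ε) (ε1 : ε ≤ 1) (τ : Fin 3)
    (Q K : Fin 3 → ℝ) (h : (∀ a, c ≤ Q a) ∧ (∀ p, 0 ≤ K p ∧ K p ≤ ε * (c - 1)) ∧
      (τ = 0 → ∀ p, K p = 0)) : ∃ U W N, Good ε (· + τ) Q K U W N := by
  obtain ⟨hQ, hK, hτ⟩ := h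
  fin_cases τ
  · have q0 : ∀ a, 0 ≤ Q a := fun a => by linarith [hQ a]
    refine ⟨fun p a => if a = p then √(Q p) else 0, fun _ _ => 0,
      fun p a => if a = p then Q p else 0, fun p a b => ?_, fun p a b => Or.inl (hτ rfl p),
      fun a => by simp, fun p a => ?_, fun a => ⟨a, by simp⟩,
      fun p => by simp [ε0], fun p => by simp [ε0]⟩
    · have := Real.mul_self_sqrt (q0 p)
      fin_cases p <;> fin_cases a <;> fin_cases b <;> simp at this ⊢ <;> exact this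
    · split_ifs
      exacts [q0 p, le_rfl]
  · obtain ⟨U, W, N, h1, -⟩ := good_AB c0 ε1 1 1 (Or.inl ⟨rfl, rfl⟩) Q K hQ hK
    exact ⟨U, W, N, h1⟩
  · obtain ⟨U, W, N, h1, -⟩ := good_AB c0 ε1 2 (-1) (Or.inr ⟨rfl, rfl⟩) Q K hQ hK
    exact ⟨U, W, N, h1⟩

theorem mg_aux {x y z X Y Z Δ : ℝ} (x0 : 0 ≤ x) (y0 : 0 ≤ y) (z0 : 0 ≤ z) (y1 : y ≤ Y) (z1 : z ≤ Z)
    (h : x ≤ y ∨ x ≤ z) (d1 : Z - X ≤ Δ) (d2 : Y - X ≤ Δ) (d3 : Y - Z ≤ Δ)
    (d4 : Z - Y ≤ Δ) :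
    -((x + y + z) * Δ) ≤ x * (Y + Z - 2 * y - 2 * z) + y * (X - Z) + z * (X - Y) + 2 * y * z := by
  have e1 := mul_le_mul_of_nonneg_left d1 y0
  have e2 := mul_le_mul_of_nonneg_left d2 z0
  rcases h with h | h
  · nlinarith [mul_le_mul_of_nonneg_left d3 x0, mul_le_mul_of_nonneg_left y1 x0,
      mul_le_mul_of_nonneg_left h z0]
  · nlinarith [mul_le_mul_of_nonneg_left d4 x0, mul_le_mul_of_nonneg_left z1 x0,
      mul_le_mul_of_nonneg_left h y0]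

theorem mg_eq (N : Fin 3 → Fin 3 → ℝ) (s a : Fin 3) : mg N s a =
    N s a * ((∑ c, N (s + 1) c) + (∑ c, N (s + 2) c) - 2 * N (s + 1) a - 2 * N (s + 2) a) +
      N (s + 1) a * ((∑ c, N s c) - ∑ c, N (s + 2) c) +
      N (s + 2) a * ((∑ c, N s c) - ∑ c, N (s + 1) c) + 2 * N (s + 1) a * N (s + 2) a := by
  have e1 : s + 1 + 1 = s + 2 := by fin_cases s <;> rfl
  have e2 : s + 1 + 2 = s := by fin_cases s <;> rfl
  have e3 : s + 2 + 1 = s := by fin_cases s <;> rfl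
  have e4 : s + 2 + 2 = s + 1 := by fin_cases s <;> rfl
  simp only [mg, dd, e1, e2, e3, e4]
  ring

theorem sum3 (f : Fin 3 → ℝ) (s : Fin 3) : ∑ p, f p = f s + f (s + 1) + f (s + 2) := by
  fin_cases s <;> simp [Fin.sum_univ_three] <;> ring

theorem Good.mg_ge {ε c : ℝ} {π : Fin 3 → Fin 3} {Q K : Fin 3 → ℝ} {U W N : Fin 3 → Fin 3 → ℝ}
    (G : Good ε π Q K U W N) (ε0 : 0 ≤ ε) (ε1 : 2 * ε ≤ c) (hQ : ∀ a, c ≤ Q a ∧ Q a ≤ c + 4)
    (hd : ∀ a b, Q a - Q b ≤ 2) (s a : Fin 3) :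
    -((c + 4) * (2 + 2 * ε)) ≤ mg N s a ∧
      (a = π s → 2 * (c - ε) * (c - 2 * ε) - ε * (2 + 2 * ε) ≤ mg N s a) := by
  have r0 : ∀ p a, N p a ≤ ∑ c, N p c := fun p a =>
    single_le_sum (fun c _ => G.nonneg p c) (mem_univ a)
  have r1 : ∀ p q, (∑ c, N p c) - ∑ c, N q c ≤ 2 + 2 * ε := fun p q => by
    linarith [G.row p, G.big q, r0 q (π q), hd (π p) (π q)]
  have r2 : ∀ p, c - ε ≤ ∑ c, N p c := fun p => by
    linarith [G.big p, r0 p (π p), (hQ (π p)).1]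
  have cs := (sum3 (fun p => N p a) s).symm.trans (G.col a)
  have x0 := G.nonneg s a
  have y0 := G.nonneg (s + 1) a
  have z0 := G.nonneg (s + 2) a
  have bg : a = π s → 2 * (c - ε) * (c - 2 * ε) - ε * (2 + 2 * ε) ≤ mg N s a := by
    rintro rfl
    rw [mg_eq]
    have b1 := G.big s
    have b2 := (hQ (π s)).1
    have e1 := mul_le_mul_of_nonneg_left (r1 (s + 2) s) y0
    have e2 := mul_le_mul_of_nonneg_left (r1 (s + 1) s) z0
    have e3 := mul_nonneg y0 z0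
    have e4 : (c - ε) * (2 * (c - 2 * ε)) ≤ N s (π s) * ((∑ c, N (s + 1) c) + (∑ c, N (s + 2) c) -
        2 * N (s + 1) (π s) - 2 * N (s + 2) (π s)) :=
      mul_le_mul (by linarith) (by linarith [r2 (s + 1), r2 (s + 2)]) (by linarith) x0
    have e5 : (N (s + 1) (π s) + N (s + 2) (π s)) * (2 + 2 * ε) ≤ ε * (2 + 2 * ε) :=
      mul_le_mul_of_nonneg_right (by linarith) (by linarith)
    nlinarith
  refine ⟨?_, bg⟩
  obtain ⟨p, hp⟩ := G.surj a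
  by_cases e : p = s
  · refine le_trans ?_ (bg (by rw [← hp, e]))
    nlinarith [mul_nonneg (show 0 ≤ c - ε by linarith) (show 0 ≤ c - 2 * ε by linarith),
      mul_nonneg (show 0 ≤ c + 4 - ε by linarith) (show 0 ≤ 2 + 2 * ε by linarith)]
  rw [mg_eq]
  refine le_trans ?_ (mg_aux x0 y0 z0 (r0 _ _) (r0 _ _) ?_ (r1 _ _) (r1 _ _) (r1 _ _) (r1 _ _))
  · rw [cs, neg_le_neg_iff]
    exact mul_le_mul_of_nonneg_right (hQ a).2 (by linarith)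
  · have b1 := G.big p
    have b2 := (hQ a).1
    rw [hp] at b1
    have : p = s + 1 ∨ p = s + 2 := by revert e; fin_cases p <;> fin_cases s <;> simp
    rcases this with rfl | rfl
    · exact Or.inl (by linarith)
    · exact Or.inr (by linarith)

/-- the four types used with a single pair on the first axis -/
def pi4 : Fin 4 → Fin 3 → Fin 3 := ![![1, 2, 0], ![2, 0, 1], ![1, 0, 2], ![2, 1, 0]]

/-- the signs of the four types -/
def sg4 : Fin 4 → ℝ := ![1, -1, 1, -1]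

theorem good4 {c : ℝ} (c0 : 14 ≤ c) (n : Fin 4) (Q K : Fin 3 → ℝ)
    (h : (∀ a, c ≤ Q a ∧ Q a ≤ c + 4) ∧ (∀ p, 0 ≤ K p ∧ K p ≤ 8) ∧ K 0 ≤ 4 ∧
      (n = 2 → K 2 = 0) ∧ (n = 3 → K 1 = 0)) : ∃ U W N, Good 1 (pi4 n) Q K U W N ∧
      sg4 n * gq Q K + K 0 - (K 1 + K 2) / 5 ≤ mg N 0 0 := by
  obtain ⟨hQ, hK, k4, h2, h3⟩ := h
  have q0 : ∀ a, 0 < Q a := fun a => by linarith [(hQ a).1]
  have AB : ∀ (τ : Fin 3) (e : ℝ), τ = 1 ∧ e = 1 ∨ τ = 2 ∧ e = -1 → ∃ U W N,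
      Good 1 (· + τ) Q K U W N ∧ e * gq Q K + K 0 - (K 1 + K 2) / 5 ≤ mg N 0 0 := fun τ e h => by
    obtain ⟨U, W, N, h1, y, y0, y1, h2⟩ := good_AB (c := c) (by linarith) le_rfl τ e h Q K
      (fun a => (hQ a).1) fun p => ⟨(hK p).1, by linarith [(hK p).2]⟩
    have y2 : ∀ p, 0 < y p := fun p => by linarith [y0 p]
    have a0 : K 0 ≤ 2 * Q 0 * (K 0 / y 0) := by
      rw [← mul_div_assoc, le_div_iff₀ (y2 0)]
      nlinarith [(hK 0).1, (hQ 0).1, (hQ τ).2]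
    have a1 : K 1 / y 1 ≤ K 1 / 10 := div_le_div_of_nonneg_left (hK 1).1 (by norm_num)
      (by linarith [y0 1])
    have a2 : K 2 / y 2 ≤ 1 := (div_le_one (y2 2)).2 (by linarith [(hK 2).2, y0 2])
    have a3 := mul_le_mul a1 a2 (div_nonneg (hK 2).1 (y2 2).le) (by linarith [(hK 1).1])
    exact ⟨U, W, N, h1, by linarith [(hK 2).1]⟩
  have x0 : ∀ p a, 0 ≤ K p / Q a := fun p a => div_nonneg (hK p).1 (q0 a).le
  have x1 : ∀ p a, K p / Q a ≤ K p / 14 := fun p a =>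
    div_le_div_of_nonneg_left (hK p).1 (by norm_num) (by linarith [(hQ a).1])
  have x2 : ∀ a, K 0 ≤ 2 * Q 0 * (K 0 / Q a) := fun a => by
    rw [← mul_div_assoc, le_div_iff₀ (q0 a)]
    nlinarith [(hK 0).1, (hQ 0).1, (hQ a).2]
  obtain ⟨u, u0, hu⟩ : ∃ u : Fin 3 → ℝ, (∀ p, u p ≠ 0) ∧ ∀ p, u p * u p = Q p :=
    ⟨fun p => √(Q p), fun p => (Real.sqrt_pos.2 (q0 p)).ne',
      fun p => Real.mul_self_sqrt (q0 p).le⟩
  have v0 := u0 0
  have v1 := u0 1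
  have v2 := u0 2
  fin_cases n
  · obtain ⟨U, W, N, h1, h2⟩ := AB 1 1 (Or.inl ⟨rfl, rfl⟩)
    exact ⟨U, W, N, by convert h1 using 1; funext p; fin_cases p <;> rfl, h2⟩
  · obtain ⟨U, W, N, h1, h2⟩ := AB 2 (-1) (Or.inr ⟨rfl, rfl⟩)
    exact ⟨U, W, N, by convert h1 using 1; funext p; fin_cases p <;> rfl, h2⟩
  · have z := h2 rfl
    have b1 := x1 0 1
    have b2 := x1 1 0
    have b3 := x0 0 1
    have b4 := x0 1 0
    have b5 := (hK 1).2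
    have b6 := (hQ 2).1
    obtain ⟨l, hl⟩ : ∃ l : ℝ, l * l = Q 2 - K 0 / Q 1 - K 1 / Q 0 :=
      ⟨_, Real.mul_self_sqrt (by linarith)⟩
    refine ⟨![![0, u 1, 0], ![u 0, 0, 0], ![0, 0, l]], ![![0, 0, 1 / u 1], ![0, 0, -1 / u 0], 0],
      ![![0, Q 1, K 0 / Q 1], ![Q 0, 0, K 1 / Q 0], ![0, 0, Q 2 - K 0 / Q 1 - K 1 / Q 0]],
      ⟨fun p a b => ?_, fun p a b => ?_, fun a => ?_, fun p a => ?_, by decide,
      fun p => ?_, fun p => ?_⟩, ?_⟩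
    · fin_cases p <;> fin_cases a <;> fin_cases b <;> simp [hl, hu] <;> rw [← hu] <;> field_simp
    · fin_cases p <;> fin_cases a <;> fin_cases b <;> simp [Jm, z] <;> right <;> field_simp
    · fin_cases a <;> simp [Fin.sum_univ_three]
    · fin_cases p <;> fin_cases a <;> simp <;> linarith [q0 0, q0 1]
    · fin_cases p <;> simp [pi4] <;> linarith
    · fin_cases p <;> simp [pi4, Fin.sum_univ_three] <;> linarith
    · have k1 := mul_div_cancel₀ (K 1) (q0 0).ne'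
      simp [mg, dd, gq, sg4, Fin.sum_univ_three, z]
      nlinarith [x2 1, (hK 1).1]
  · have z := h3 rfl
    have b1 := x1 0 2
    have b2 := x1 2 0
    have b3 := x0 0 2
    have b4 := x0 2 0
    have b5 := (hK 2).2
    have b6 := (hQ 1).1
    obtain ⟨l, hl⟩ : ∃ l : ℝ, l * l = Q 1 - K 0 / Q 2 - K 2 / Q 0 :=
      ⟨_, Real.mul_self_sqrt (by linarith)⟩
    refine ⟨![![0, 0, u 2], ![0, l, 0], ![u 0, 0, 0]], ![![0, -1 / u 2, 0], 0, ![0, 1 / u 0, 0]],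
      ![![0, K 0 / Q 2, Q 2], ![0, Q 1 - K 0 / Q 2 - K 2 / Q 0, 0], ![Q 0, K 2 / Q 0, 0]],
      ⟨fun p a b => ?_, fun p a b => ?_, fun a => ?_, fun p a => ?_, by decide,
      fun p => ?_, fun p => ?_⟩, ?_⟩
    · fin_cases p <;> fin_cases a <;> fin_cases b <;> simp [hl, hu] <;> rw [← hu] <;> field_simp
    · fin_cases p <;> fin_cases a <;> fin_cases b <;> simp [Jm, z] <;> right <;> field_simp
    · fin_cases a <;> simp [Fin.sum_univ_three]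
      ring
    · fin_cases p <;> fin_cases a <;> simp <;> linarith [q0 0, q0 2]
    · fin_cases p <;> simp [pi4] <;> linarith
    · fin_cases p <;> simp [pi4, Fin.sum_univ_three] <;> linarith
    · have k1 := mul_div_cancel₀ (K 2) (q0 0).ne'
      simp [mg, dd, gq, sg4, Fin.sum_univ_three, z]
      nlinarith [x2 2, (hK 2).1]

end Pool.Agent.P.MP_c2263a_gt.All
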