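import Pool.Agent.P.MP_c2263a_gt.All.Four
import Pool.Agent.P.MP_c2263a_gt.All.Char

/-! Algebraic identities for the blocks of a core system. -/

set_option autoImplicit false

namespace Pool.Agent.P.MP_c2263a_gt.All

open Finset Matrix ComplexConjugate Complex Pool.Agent.P.MP_c2263a_gt.Fix

/-- complex frame vectors -/
noncomputable def zt (κ : Fin 3 → ℝ) (U W : Fin 3 → Fin 3 → ℝ) (a : Fin 3) (e : ℤ) (p : Fin 3) : ℂ :=
  U p a + I * (e * κ p * W p a)

theorem zt_conj (κ : Fin 3 → ℝ) (U W : Fin 3 → Fin 3 → ℝ) (a : Fin 3) (e : ℤ) (p : Fin 3) :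
    conj (zt κ U W a e p) = zt κ U W a (-e) p := by
  simp [zt]

theorem zt_neg (κ : Fin 3 → ℝ) (U W : Fin 3 → Fin 3 → ℝ) (a : Fin 3) (e : ℤ) (p : Fin 3) :
    zt (fun p => -κ p) U W a e p = conj (zt κ U W a e p) := by
  simp [zt]

theorem zt_gram {κ : Fin 3 → ℝ} {U W N : Fin 3 → Fin 3 → ℝ} {p : Fin 3}
    (h1 : ∀ a b, U p a * U p b + κ p ^ 2 * (W p a * W p b) = if a = b then N p a else 0)
    (h2 : ∀ a b, κ p ^ 2 = 0 ∨ U p a * W p b - W p a * U p b = Jm p a b) {e : ℤ}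
    (he : e = 1 ∨ e = -1) (a b : Fin 3) : conj (zt κ U W a e p) * zt κ U W b e p =
      ((if a = b then N p a else 0 : ℝ) : ℂ) + I * (e * κ p * Jm p a b : ℝ) := by
  have h3 : κ p * (U p a * W p b - W p a * U p b) = κ p * Jm p a b := by
    rcases h2 a b with h | h
    · rw [pow_eq_zero_iff two_ne_zero] at h
      rw [h, zero_mul, zero_mul]
    · rw [h]
  rw [← h1, mul_assoc, ← h3]
  apply Complex.ext <;> rcases he with rfl | rfl <;> simp [zt, sq] <;> ring

/-- the anticommutator of two infinitesimal rotations -/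
def Sm (r a b : Fin 3) : ℝ :=
  ∑ c, (Jm (r + 1) a c * Jm (r + 2) c b + Jm (r + 2) a c * Jm (r + 1) c b)

theorem cross_re (r a b : Fin 3) (x y : Fin 3 → ℂ) (N : Fin 3 → Fin 3 → ℝ) (α β : ℝ)
    (hx : ∀ a b, conj (x a) * x b =
      ((if a = b then N (r + 1) a else 0 : ℝ) : ℂ) + I * (α * Jm (r + 1) a b : ℝ))
    (hy : ∀ a b, conj (y a) * y b =
      ((if a = b then N (r + 2) a else 0 : ℝ) : ℂ) + I * (β * Jm (r + 2) a b : ℝ)) :
    (∑ c, conj (x a * y c - y a * x c) * (x b * y c - y b * x c)).re =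
      (if a = b then dd N r a else 0) + α * β * Sm r a b := by
  have e : ∑ c, conj (x a * y c - y a * x c) * (x b * y c - y b * x c) =
      conj (x a) * x b * (∑ c, conj (y c) * y c) + conj (y a) * y b * (∑ c, conj (x c) * x c) -
      ∑ c, conj (x a) * x c * (conj (y c) * y b) - ∑ c, conj (y a) * y c * (conj (x c) * x b) := by
    simp only [Fin.sum_univ_three, map_sub, map_mul]
    ring
  rw [e]
  simp only [hx, hy]
  fin_cases r <;> fin_cases a <;> fin_cases b <;>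
    simp [Fin.sum_univ_three, Jm, dd, Sm] <;> ring

theorem marg_alg (D : Fin 3 → Fin 3 → ℝ) {μ : ℝ}
    (h : ∀ s a, μ ≤ D (s + 1) a + D (s + 2) a - D s a) : ∃ L : ℝ, ∀ F : Fin 4 → Fin 3 → ℝ,
    μ * ∑ g, ∑ a, F g a * F g a - L * ∑ a, (∑ g, F g a) ^ 2 ≤
      -∑ g, ∑ a, ∑ h, ∑ b,
        F g a * (if g = h then 0 else if a = b then D (ax g h) a else 0) * F h b := by
  refine ⟨∑ a, |(D 0 a + D 1 a + D 2 a + μ) / 4|, fun F => ?_⟩
  rw [sum_comm, sum_comm (s := univ (α := Fin 4)), mul_sum, mul_sum, ← sum_sub_distrib,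
    ← sum_neg_distrib]
  refine sum_le_sum fun a _ => ?_
  have e : ∀ g h, ∑ b, F g a * (if g = h then 0 else if a = b then D (ax g h) a else 0) * F h b =
      F g a * (if g = h then 0 else D (ax g h) a) * F h a := fun g h => by
    split_ifs <;> simp
  have l1 : (D 0 a + D 1 a + D 2 a + μ) / 4 ≤ ∑ a, |(D 0 a + D 1 a + D 2 a + μ) / 4| :=
    (le_abs_self _).trans (single_le_sum (f := fun a => |(D 0 a + D 1 a + D 2 a + μ) / 4|)
      (fun _ _ => abs_nonneg _) (mem_univ a))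
  generalize ∑ a, |(D 0 a + D 1 a + D 2 a + μ) / 4| = L at l1
  have h0 : μ ≤ D 1 a + D 2 a - D 0 a := h 0 a
  have h1 : μ ≤ D 2 a + D 0 a - D 1 a := h 1 a
  have h2 : μ ≤ D 0 a + D 1 a - D 2 a := h 2 a
  simp only [e]
  simp [Fin.sum_univ_four, ax]
  nlinarith [mul_nonneg (sub_nonneg.2 h0) (sq_nonneg (F 0 a + F 1 a - F 2 a - F 3 a)),
    mul_nonneg (sub_nonneg.2 h1) (sq_nonneg (F 0 a - F 1 a + F 2 a - F 3 a)),
    mul_nonneg (sub_nonneg.2 h2) (sq_nonneg (F 0 a - F 1 a - F 2 a + F 3 a)),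
    mul_nonneg (sub_nonneg.2 l1) (sq_nonneg (F 0 a + F 1 a + F 2 a + F 3 a))]

/-- the deviation of a block from `-2` times the identity -/
def Pm (p : Fin 3) (e t β : ℝ) (a b : Fin 3) : ℝ :=
  (if a = b then (if p = a + 1 then t else 0) + if p = a + 2 then t else 0 else 0) +
    e * Jm p a b * β

theorem Pm_orth (p : Fin 3) {e t β : ℝ} (he : e = 1 ∨ e = -1) (h : β ^ 2 = t * (2 - t))
    (a b : Fin 3) :
    ∑ c, ((if a = c then 1 else 0) + ((if a = c then -2 else 0) + Pm p e t β a c)) *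
      ((if b = c then 1 else 0) + ((if b = c then -2 else 0) + Pm p e t β b c)) =
      if a = b then 1 else 0 := by
  rcases he with rfl | rfl <;> fin_cases p <;> fin_cases a <;> fin_cases b <;>
    simp [Fin.sum_univ_three, Pm, Jm] <;> linarith

theorem Pm_ge (p : Fin 3) {e t β : ℝ} (he : e = 1 ∨ e = -1) (t0 : 0 ≤ t) (x y : Fin 3 → ℝ) :
    -((t + |β|) / 2 * (∑ a, x a * x a + ∑ a, y a * y a)) ≤
      ∑ a, ∑ b, x a * y b * Pm p e t β a b := by
  have k : ∀ u v w z s r : ℝ, -((t + |β|) / 2 * (u * u + v * v + s * s + (w * w + z * z + r * r))) ≤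
      t * (u * w + v * z) + β * (u * z - v * w) := fun u v w z s r => by
    have b1 := sub_nonneg.2 (le_abs_self β)
    have b2 := sub_nonneg.2 (neg_abs_le β)
    nlinarith [mul_nonneg t0 (sq_nonneg (u + w)), mul_nonneg t0 (sq_nonneg (v + z)),
      mul_nonneg b1 (sq_nonneg (u - z)), mul_nonneg b1 (sq_nonneg (v + w)),
      mul_nonneg b2 (sq_nonneg (u + z)), mul_nonneg b2 (sq_nonneg (v - w)),
      mul_nonneg (add_nonneg t0 (abs_nonneg β)) (add_nonneg (sq_nonneg s) (sq_nonneg r))]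
  rcases he with rfl | rfl <;> fin_cases p <;> simp [Fin.sum_univ_three, Pm, Jm]
  · linarith [k (x 1) (x 2) (y 1) (y 2) (x 0) (y 0)]
  · linarith [k (x 2) (x 0) (y 2) (y 0) (x 1) (y 1)]
  · linarith [k (x 0) (x 1) (y 0) (y 1) (x 2) (y 2)]
  · linarith [k (x 2) (x 1) (y 2) (y 1) (x 0) (y 0)]
  · linarith [k (x 0) (x 2) (y 0) (y 2) (x 1) (y 1)]
  · linarith [k (x 1) (x 0) (y 1) (y 0) (x 2) (y 2)]

end Pool.Agent.P.MP_c2263a_gt.All
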