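import Pool.Agent.P.MP_c2263a_gt.All.Core

/-! From a core system to many equi-isoclinic 3-planes. -/

set_option autoImplicit false

namespace Pool.Agent.P.MP_c2263a_gt.All

open Finset Matrix Filter Topology Pool.Agent.P.MP_c2263a_gt.Fix

section main

variable {k : ℕ} [NeZero k] {J L Λ M Ω : Type} [Fintype J] [Fintype L] [DecidableEq L] [Fintype Λ]
  [DecidableEq Λ] [Fintype M] [DecidableEq M] [Fintype Ω] [DecidableEq Ω] {o : Λ × M}

theorem ug_le {w : ZMod k → J → ℝ} {γ : Λ → Λ → ZMod k} {ι : Fin 4 → L → {x // x ≠ o} × Λ → Ω}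
    {c : ℝ} (h1 : ∀ g l x l' x', ι g l x = ι g l' x' ↔ l = l' ∧ x = x')
    (hγ : ∀ f : Λ → ZMod k → ℝ, ∑ b, (∑ a, ps w (f a) (γ a b)) ⬝ᵥ (∑ a, ps w (f a) (γ a b)) ≤
      c * ∑ a, ps w (f a) 0 ⬝ᵥ ps w (f a) 0) (g : Fin 4) (f : L × Λ × ZMod k → ℝ) :
    (∑ b, f b • uv w γ ι (g, b)) ⬝ᵥ (∑ b, f b • uv w γ ι (g, b)) ≤
      (Fintype.card Λ * Fintype.card M * c) *
        ∑ l, ∑ a, ps w (fun s => f (l, a, s)) 0 ⬝ᵥ ps w (fun s => f (l, a, s)) 0 := by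
  have e2 : ∑ b, f b • uv w γ ι (g, b) =
      ∑ l, vec ι g l fun x => ∑ a, ps w (fun s => f (l, a, s)) (γ a x.1.1.1) := by
    simp only [Fintype.sum_prod_type, uv, Fix.vec_sum, ps]
  rw [e2, sum_dotProduct, mul_sum]
  refine sum_le_sum fun l _ => ?_
  rw [dotProduct_sum]
  simp only [vec_same h1, sum_ite_eq, mem_univ, if_true]
  rw [Fintype.sum_prod_type]
  simp only [sum_const, card_univ, nsmul_eq_mul, ← mul_sum]
  rw [mul_assoc, mul_assoc]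
  refine mul_le_mul_of_nonneg_left ?_ (Nat.cast_nonneg _)
  rw [sum_ne o fun x => (∑ a, ps w (fun s => f (l, a, s)) (γ a x.1)) ⬝ᵥ
    ∑ a, ps w (fun s => f (l, a, s)) (γ a x.1), Fintype.sum_prod_type]
  simp only [sum_const, card_univ, nsmul_eq_mul, ← mul_sum]
  exact (sub_le_self _ (dnn _)).trans (mul_le_mul_of_nonneg_left (hγ _) (Nat.cast_nonneg _))

variable {v : Fin 4 → ZMod k → Fin 3 → J → ℝ} {ρ η μ R : ℝ}

/-- the Gram matrix on the level of types -/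
noncomputable def gr (A n : ℝ) (v : Fin 4 → ZMod k → Fin 3 → J → ℝ) (γ : Λ → Λ → ZMod k)
    (ι : Fin 4 → L → {x // x ≠ o} × Λ → Ω) (i : Fin 4 × Fin 3) (b : L × Λ × ZMod k)
    (j : Fin 4 × Fin 3) (b' : L × Λ × ZMod k) : ℝ :=
  ((if i.2 = j.2 then 1 else 0) +
    if i.1 = j.1 then 0 else (∑ x, ker A v i.1 j.1 i.2 j.2 0 x) / (k : ℝ)) +
  (if i.1 = j.1 then (if b.1 = b'.1 ∧ b.2.1 = b'.2.1 then
    A * n * (v i.1 b.2.2 i.2 ⬝ᵥ v j.1 b'.2.2 j.2) else 0) else 0) +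
  if i.1 = j.1 then 0 else bil (ker A v i.1 j.1 i.2 j.2) (uv wc γ ι (i.1, b)) (uv wc γ ι (j.1, b'))

omit [Fintype L] in
theorem gr_symm (C : Core v ρ η μ R) (A n : ℝ) (γ : Λ → Λ → ZMod k)
    (ι : Fin 4 → L → {x // x ≠ o} × Λ → Ω) (i : Fin 4 × Fin 3) (b : L × Λ × ZMod k)
    (j : Fin 4 × Fin 3) (b' : L × Λ × ZMod k) : gr A n v γ ι i b j b' = gr A n v γ ι j b' i b := by
  unfold gr
  by_cases e : i.1 = j.1
  · simp only [if_pos e, if_pos e.symm, dotProduct_comm (v i.1 b.2.2 i.2), eq_comm (a := i.2),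
      eq_comm (a := b.1), eq_comm (a := b.2.1)]
  · simp only [if_neg e, if_neg (Ne.symm e), eq_comm (a := i.2)]
    rw [bil_symm _ _ (C.ker_symm A e i.2 j.2), ← Equiv.sum_comp (Equiv.neg (ZMod k))]
    congr 4
    refine sum_congr rfl fun x _ => ?_
    rw [C.ker_symm A e, ← C.ker_shift A _ _ _ _ _ _ x]
    simp

theorem gr_psd (C : Core v ρ η μ R) {γ : Λ → Λ → ZMod k} {ι : Fin 4 → L → {x // x ≠ o} × Λ → Ω}
    {A B c : ℝ} (hB : ∀ g h s t a b, |sq2 v g h s t a b| ≤ B) (A0 : 0 ≤ A)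
    (hA : A ^ 2 * (2 * B) ≤ 1) (a1 : A ^ 2 * R ≤ 2 * k) (a2 : 24 * k * (A ^ 2 * B * B) ≤ μ)
    (h1 : ∀ g l x l' x', ι g l x = ι g l' x' ↔ l = l' ∧ x = x')
    (hγ : ∀ f : Λ → ZMod k → ℝ, ∑ b, (∑ a, ps wc (f a) (γ a b)) ⬝ᵥ (∑ a, ps wc (f a) (γ a b)) ≤
      c * ∑ a, ps wc (f a) 0 ⬝ᵥ ps wc (f a) 0)
    (hc : 12 * (A ^ 2 * B) * k * (Fintype.card Λ * Fintype.card M * c) ≤ A * Fintype.card Λ * η)
    (f : (Fin 4 × Fin 3) × (L × Λ × ZMod k) → ℝ) :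
    0 ≤ ∑ x, ∑ y, f x * f y * gr A (Fintype.card Λ) v γ ι x.1 x.2 y.1 y.2 := by
  have B0 : 0 ≤ B := (abs_nonneg _).trans (hB 0 0 0 0 0 0)
  set n : ℝ := (Fintype.card Λ : ℝ) with hn
  have n0 : 0 ≤ n := Nat.cast_nonneg _
  let G : Fin 4 × Fin 3 → Ω × ZMod k → ℝ := fun i => ∑ b, f (i, b) • uv wc γ ι (i.1, b)
  let Z : Fin 4 × Fin 3 → ℝ := fun i =>
    ∑ l, ∑ a, ps wc (fun s => f (i, l, a, s)) 0 ⬝ᵥ ps wc (fun s => f (i, l, a, s)) 0
  have e1 : ∑ x, ∑ y, f x * f y * gr A n v γ ι x.1 x.2 y.1 y.2 =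
      ∑ i, ∑ j, (∑ b, f (i, b)) * (∑ b, f (j, b)) * ((if i.2 = j.2 then 1 else 0) +
        if i.1 = j.1 then 0 else (∑ x, ker A v i.1 j.1 i.2 j.2 0 x) / (k : ℝ)) +
      ∑ i, ∑ j, (if i.1 = j.1 then A * n * ∑ l, ∑ a, ∑ s, ∑ t,
        f (i, l, a, s) * f (j, l, a, t) * (v i.1 s i.2 ⬝ᵥ v j.1 t j.2) else 0) +
      ∑ i, ∑ j, if i.1 = j.1 then 0 else bil (ker A v i.1 j.1 i.2 j.2) (G i) (G j) := by
    rw [Fintype.sum_prod_type, ← sum_add_distrib, ← sum_add_distrib]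
    refine sum_congr rfl fun i _ => ?_
    rw [sum_congr rfl fun b _ => Fintype.sum_prod_type _, sum_comm, ← sum_add_distrib,
      ← sum_add_distrib]
    refine sum_congr rfl fun j _ => ?_
    simp only [gr, mul_add (f _ * f _), sum_add_distrib]
    congr 1
    · congr 1
      · rw [mul_add, sum_mul_sum, sum_mul, sum_mul]
        simp only [sum_mul]
      · split_ifs
        · simp only [Fintype.sum_prod_type, ite_and, mul_ite, mul_zero, sum_ite_irrel,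
            sum_const_zero, sum_ite_eq, mem_univ, if_true, mul_sum]
          exact sum_congr rfl fun l _ => sum_congr rfl fun a _ => sum_congr rfl fun s _ =>
            sum_congr rfl fun t _ => by ring
        · simp
    · split_ifs
      · simp
      · exact bil_sum _ _ _ _ _
  have t2 : A * n * η * ∑ i, Z i ≤ ∑ i : Fin 4 × Fin 3, ∑ j : Fin 4 × Fin 3,
      (if i.1 = j.1 then A * n * ∑ l, ∑ a, ∑ s, ∑ t,
        f (i, l, a, s) * f (j, l, a, t) * (v i.1 s i.2 ⬝ᵥ v j.1 t j.2) else 0) := by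
    rw [Fintype.sum_prod_type, Fintype.sum_prod_type, mul_sum]
    refine sum_le_sum fun g _ => ?_
    have e : ∀ e : Fin 3, (∑ j : Fin 4 × Fin 3, if (g, e).1 = j.1 then A * n * ∑ l, ∑ a, ∑ s, ∑ t,
        f ((g, e), l, a, s) * f (j, l, a, t) * (v (g, e).1 s (g, e).2 ⬝ᵥ v j.1 t j.2) else 0) =
        A * n * ∑ e', ∑ l, ∑ a, ∑ s, ∑ t,
          f ((g, e), l, a, s) * f ((g, e'), l, a, t) * (v g s e ⬝ᵥ v g t e') := fun e => by
      rw [Fintype.sum_prod_type, sum_eq_single g (fun h _ c => by simp [c.symm]) (by simp)]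
      simp only [if_true, ← mul_sum]
    rw [sum_congr rfl fun x _ => e x, ← mul_sum, mul_assoc]
    refine mul_le_mul_of_nonneg_left ?_ (mul_nonneg A0 n0)
    simp only [Z]
    rw [sum_comm, mul_sum, sum_congr rfl fun e _ => sum_comm, sum_comm (s := univ (α := Fin 3))]
    refine sum_le_sum fun l _ => ?_
    rw [sum_comm, mul_sum, sum_congr rfl fun e _ => sum_comm, sum_comm (s := univ (α := Fin 3))]
    refine sum_le_sum fun a _ => ?_
    simp only [ps_dot wc_dot]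
    exact C.gap g fun e s => f ((g, e), l, a, s)
  have t4 : -(12 * (A ^ 2 * B) * k * ∑ i, G i ⬝ᵥ G i) ≤ ∑ i : Fin 4 × Fin 3, ∑ j : Fin 4 × Fin 3,
      if i.1 = j.1 then 0 else bil (ker A v i.1 j.1 i.2 j.2) (G i) (G j) := by
    refine le_trans (le_of_eq ?_) (sum_le_sum fun i _ => sum_le_sum fun j _ => show
      -(A ^ 2 * B / 2 * (k * (G i ⬝ᵥ G i) + k * (G j ⬝ᵥ G j))) ≤ _ from ?_)
    · simp only [mul_add, neg_add, sum_add_distrib, sum_neg_distrib, sum_const, card_univ,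
        nsmul_eq_mul, ← mul_sum, Fintype.card_prod, Fintype.card_fin]
      push_cast
      ring
    · split_ifs
      · have := dnn (G i)
        have := dnn (G j)
        rw [neg_nonpos]
        positivity
      · have := bil_ge _ (fun u u' => (ker_le hB hA i.1 j.1 i.2 j.2 u u').1) (G i) (G j)
        rwa [ZMod.card] at this
  have t5 := sum_le_sum fun (i : Fin 4 × Fin 3) (_ : i ∈ univ) => ug_le h1 hγ i.1 fun b => f (i, b)
  rw [← mul_sum] at t5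
  have z0 : 0 ≤ ∑ i, Z i :=
    sum_nonneg fun _ _ => sum_nonneg fun _ _ => sum_nonneg fun _ _ => dnn _
  have t6 := mul_le_mul_of_nonneg_left t5 (show 0 ≤ 12 * (A ^ 2 * B) * k by positivity)
  have t7 := mul_le_mul_of_nonneg_right hc z0
  have t1 := C.mean hB hA a1 a2 fun i => ∑ b, f (i, b)
  rw [e1]
  simp only [G, Z] at t2 t4 t7 ⊢
  linarith

theorem build2 (C : Core v ρ η μ R) {γ : Λ → Λ → ZMod k} {ι : Fin 4 → L → {x // x ≠ o} × Λ → Ω}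
    {A B c : ℝ} {H1 : Λ × M → Λ × M → ℝ} {H2 : Λ → Λ → ℝ} {o2 : Λ} (ρ0 : 0 < ρ)
    (hB : ∀ g h s t a b, |sq2 v g h s t a b| ≤ B) (A0 : 0 ≤ A)
    (hA : A ^ 2 * (2 * B) ≤ 1) (a1 : A ^ 2 * R ≤ 2 * k) (a2 : 24 * k * (A ^ 2 * B * B) ≤ μ)
    (h1 : ∀ g l x l' x', ι g l x = ι g l' x' ↔ l = l' ∧ x = x')
    (h2 : ∀ g h, g ≠ h → ∀ l l', ∃ y y', ∀ x x', ι g l x = ι h l' x' ↔ x = y ∧ x' = y')
    (hγ : ∀ f : Λ → ZMod k → ℝ, ∑ b, (∑ a, ps wc (f a) (γ a b)) ⬝ᵥ (∑ a, ps wc (f a) (γ a b)) ≤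
      c * ∑ a, ps wc (f a) 0 ⬝ᵥ ps wc (f a) 0)
    (hc : 12 * B * k * c ≤ η * (Fintype.card Λ : ℝ) ^ 2) (hH1 : Had H1 o) (hH2 : Had H2 o2)
    (A2 : A * (Fintype.card Λ * (Fintype.card Λ * Fintype.card M)) = 1) {m : ℕ}
    (hm : Fintype.card (Ω × J) + Fintype.card ((Fin 4 × Fin 3) × (L × Λ × ZMod k)) ≤ m) :
    ∃ U : Fin (Fintype.card ((Fin 4 × L × Λ × ZMod k) × (Λ × M))) →
      Submodule ℝ (EuclideanSpace ℝ (Fin m)), (∀ i, Module.finrank ℝ (U i) = 3) ∧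
      ∀ i j, i ≠ j → ∀ u ∈ U i,
        ‖(U j).starProjection u‖ ^ 2 = (1 / (1 + ρ)) ^ 2 * ‖u‖ ^ 2 := by
  have n0 : (0 : ℝ) < Fintype.card Λ := by exact_mod_cast Fintype.card_pos_iff.2 ⟨o2⟩
  obtain ⟨r, hr⟩ := gram_of_psd (fun x y : (Fin 4 × Fin 3) × (L × Λ × ZMod k) =>
    gr A (Fintype.card Λ) v γ ι x.1 x.2 y.1 y.2) (fun x y => gr_symm C _ _ _ _ _ _ _ _)
    (gr_psd C hB A0 hA a1 a2 h1 hγ (by
      refine le_of_mul_le_mul_left ?_ n0
      have := mul_le_mul_of_nonneg_left hc A0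
      have e : (Fintype.card Λ : ℝ) * (12 * (A ^ 2 * B) * k * (Fintype.card Λ * Fintype.card M * c))
        = A * (12 * B * k * c) := by linear_combination 12 * A * B * k * c * A2
      linarith))
  set n : ℝ := (Fintype.card Λ : ℝ) with hn
  set N : ℝ := (Fintype.card M : ℝ) with hN
  obtain ⟨a, ha⟩ : ∃ a : ℝ, a * a = A := ⟨√A, Real.mul_self_sqrt A0⟩
  set y : (Fin 4 × L × Λ × ZMod k) × (Λ × M) → Fin 3 → Ω × J → ℝ := fun p e =>
    vec ι p.1.1 p.1.2.1 fun x =>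
      (a * H1 p.2 x.1 * H2 p.1.2.2.1 x.2) • v p.1.1 (p.1.2.2.2 + γ p.1.2.2.1 x.1.1.1) e with hy
  have same : ∀ p p' e e', p.1.1 = p'.1.1 →
      y p e ⬝ᵥ y p' e' + r ((p.1.1, e), p.1.2) ⬝ᵥ r ((p'.1.1, e'), p'.1.2) =
      (if e = e' then 1 else 0) + if p.1.2.1 = p'.1.2.1 ∧ p.1.2.2.1 = p'.1.2.2.1 ∧ p.2 = p'.2 then
        v p.1.1 p.1.2.2.2 e ⬝ᵥ v p.1.1 p'.1.2.2.2 e' else 0 := by
    rintro ⟨⟨g, l, x, s⟩, μ⟩ ⟨⟨g', l', x', s'⟩, μ'⟩ e e' (rfl : g = g')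
    rw [hr]
    simp only [hy, gr, vec_same h1, smul_dotProduct, dotProduct_smul, smul_eq_mul, if_true]
    by_cases e1 : l = l'
    · rw [if_pos e1, Fintype.sum_prod_type]
      have e3 : ∀ z : {x // x ≠ o}, ∑ z', a * H1 μ' z * H2 x' z' * (a * H1 μ z * H2 x z' *
          (v g (s + γ x z.1.1) e ⬝ᵥ v g (s' + γ x' z.1.1) e')) = A * (H1 μ z * H1 μ' z) *
          (v g (s + γ x z.1.1) e ⬝ᵥ v g (s' + γ x' z.1.1) e') * ∑ z', H2 x z' * H2 x' z' :=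
        fun z => by
          rw [mul_sum]
          exact sum_congr rfl fun z' _ => by rw [← ha]; ring
      simp only [e3, hH2.orth, e1, true_and]
      by_cases e2 : x = x'
      · subst e2
        simp only [C.shift, if_true, true_and, ← sum_mul, ← mul_sum]
        rw [sum_ne o fun z => H1 μ z * H1 μ' z, hH1.orth, hH1.one, hH1.one, Fintype.card_prod]
        push_cast
        rw [← hn, ← hN]
        by_cases e4 : μ = μ'
        · simp only [if_pos e4]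
          linear_combination (v g s e ⬝ᵥ v g s' e') * A2
        · simp only [if_neg e4]
          ring
      · simp only [e2, if_false, false_and, mul_zero, sum_const_zero]
        ring
    · simp only [e1, if_false, false_and]
      ring
  refine asm2 (by rw [one_div_pos]; linarith) (by rw [div_lt_one (by linarith)]; linarith)
    y (fun p e => r ((p.1.1, e), p.1.2)) (fun p e e' => ?_) (fun p p' e1 e e' => ?_) hm
  · rw [same p p e e' rfl]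
    simp only [and_self, if_true, one_div_one_div, C.diag]
    split_ifs <;> ring
  · by_cases e2 : p.1.1 = p'.1.1
    · simp only [same p p' _ _ e2]
      by_cases c1 : p.1.2.1 = p'.1.2.1 ∧ p.1.2.2.1 = p'.1.2.2.1 ∧ p.2 = p'.2
      · simp only [if_pos c1]
        exact C.orth _ _ _ (fun c2 =>
          e1 (Prod.ext (Prod.ext e2 (Prod.ext c1.1 (Prod.ext c1.2.1 c2))) c1.2.2)) _ _
      · simp only [if_neg c1, add_zero, ite_mul, one_mul, zero_mul, sum_ite_eq, mem_univ, if_true,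
          eq_comm (a := e')]
    · obtain ⟨z, z', hz⟩ := h2 _ _ e2 p.1.2.1 p'.1.2.1
      obtain ⟨σ, hσ⟩ : ∃ σ, σ = p.1.2.2.2 + γ p.1.2.2.1 z.1.1.1 := ⟨_, rfl⟩
      obtain ⟨σ', hσ'⟩ : ∃ σ, σ = p'.1.2.2.2 + γ p'.1.2.2.1 z'.1.1.1 := ⟨_, rfl⟩
      obtain ⟨θ, hθ⟩ : ∃ θ, θ = a * H1 p.2 z.1 * H2 p.1.2.2.1 z.2 *
        (a * H1 p'.2 z'.1 * H2 p'.1.2.2.1 z'.2) := ⟨_, rfl⟩
      have θ2 : θ ^ 2 = A ^ 2 := by
        rw [hθ, ← ha]
        simp only [mul_pow, hH1.sq, hH2.sq]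
        ring
      obtain ⟨q0, q1⟩ := half_le hB p.1.1 p'.1.1 σ σ'
      have c2 := (cf_spec ((mul_le_mul_of_nonneg_left q1 (sq_nonneg A)).trans hA)).2.2
      have u1 : ∀ e e', y p e ⬝ᵥ y p' e' + r ((p.1.1, e), p.1.2) ⬝ᵥ r ((p'.1.1, e'), p'.1.2) =
          (if e = e' then 1 else 0) - cf A ((∑ e, sq2 v p.1.1 p'.1.1 σ σ' e e) / 2) *
            (∑ d, v p.1.1 σ e ⬝ᵥ v p'.1.1 σ' d * (v p.1.1 σ e' ⬝ᵥ v p'.1.1 σ' d)) +
            θ * (v p.1.1 σ e ⬝ᵥ v p'.1.1 σ' e') := fun e e' => by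
        rw [hr, hy]
        simp only [gr, if_neg e2, uv]
        rw [vec_diff hz, bil_vec hz, wc_form _ (C.ker_shift A _ _ _ _), ← hσ, ← hσ',
          smul_dotProduct, dotProduct_smul, smul_eq_mul, smul_eq_mul, hθ]
        simp only [ker, sq2]
        ring
      simp only [u1]
      exact rot3 (fun e e' => v p.1.1 σ e ⬝ᵥ v p'.1.1 σ' e') (C.skew _ _ e2 σ σ')
        (by rw [θ2]; exact c2) e e'

end main

theorem low0 {d : ℕ} {J : Type} [Fintype J] {v : Fin 4 → ZMod (d + 1) → Fin 3 → J → ℝ}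
    {ρ η μ R : ℝ} (C : Core v ρ η μ R) (hJ : Fintype.card J = 4 * d) (ρ0 : 0 < ρ) (η0 : 0 < η)
    (μ0 : 0 < μ) : ∃ n z0 : ℕ, 0 < n ∧ ∀ N q m : ℕ, HadN N →
    q + 1 + n = n * (n * N) → z0 ≤ n * (n * N) →
    4 * ((q * q + 4 * q) * d) + 3 * (4 * (q * (n * (d + 1)))) ≤ m →
    ∃ U : Fin (4 * (q * (n * (d + 1))) * (n * N)) → Submodule ℝ (EuclideanSpace ℝ (Fin m)),
      (∀ i, Module.finrank ℝ (U i) = 3) ∧ ∀ i j, i ≠ j → ∀ u ∈ U i,
        ‖(U j).starProjection u‖ ^ 2 = (1 / (1 + ρ)) ^ 2 * ‖u‖ ^ 2 := by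
  classical
  obtain ⟨B', hB'⟩ := (Set.finite_range fun x : (Fin 4 × Fin 4) × (ZMod (d + 1) × ZMod (d + 1)) ×
    Fin 3 × Fin 3 => |sq2 v x.1.1 x.1.2 x.2.1.1 x.2.1.2 x.2.2.1 x.2.2.2|).bddAbove
  obtain ⟨B, B0, hB⟩ : ∃ B, 0 < B ∧ ∀ g h s t a b, |sq2 v g h s t a b| ≤ B :=
    ⟨|B'| + 1, by positivity, fun g h s t a b =>
      (hB' ⟨((g, h), (s, t), a, b), rfl⟩).trans (by linarith [le_abs_self B'])⟩
  have k1 : (1 : ℝ) ≤ (d + 1 : ℕ) := by exact_mod_cast Nat.succ_pos d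
  obtain ⟨δ, hδ⟩ : ∃ δ : ℝ, δ = 1 / ((d + 1 : ℕ) : ℝ) ^ 3 / 4 := ⟨_, rfl⟩
  have δ0 : 0 < δ := by rw [hδ]; positivity
  have δ1 : δ ≤ 1 := by
    rw [hδ, div_div, div_le_one (by positivity)]
    nlinarith [one_le_pow₀ (n := 3) k1]
  obtain ⟨t, ht⟩ := ((tendsto_pow_atTop_nhds_zero_of_lt_one (r := (4 - δ) / 4) (by linarith)
    (by linarith)).eventually (gt_mem_nhds (show (0 : ℝ) < η / (12 * B * (d + 1 : ℕ)) by
      positivity))).exists_forall_of_atTop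
  obtain ⟨Λ, _, γ, hΛ, hγ⟩ := pattern (k := d + 1) wc_dot (t + 1)
  obtain ⟨z0, hz0⟩ := exists_nat_ge (1 + 2 * B + |R| + 24 * (d + 1 : ℕ) * B * B / μ)
  refine ⟨2 ^ (t + 1), z0, by positivity, fun N q m hN hq hb hm => ?_⟩
  obtain ⟨H2, o2, hH2⟩ := (had2.pow (t + 1)).on Λ hΛ
  have c1 : Fintype.card (Λ × Fin N) = 2 ^ (t + 1) * N := by simp [hΛ]
  obtain ⟨H1, o, hH1⟩ := ((had2.pow (t + 1)).mul hN).on (Λ × Fin N) c1
  have c2 : Fintype.card ({x // x ≠ o} × Λ) = q + 1 := by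
    rw [Fintype.card_prod, Fintype.card_subtype_compl, c1, Fintype.card_unique, hΛ, Nat.sub_mul]
    rw [mul_comm] at hq
    omega
  have c3 : Odd q := by
    rw [pow_succ', mul_assoc] at hq
    exact Nat.odd_iff.2 (by omega)
  obtain ⟨L, Ω, _, _, _, _, ι, hL, hΩ, h1, h2⟩ := net _ c3 c2
  obtain ⟨z, hz⟩ : ∃ z : ℝ, z = Fintype.card Λ * (Fintype.card Λ * Fintype.card (Fin N)) := ⟨_, rfl⟩
  have z1 : 1 + 2 * B + |R| + 24 * (d + 1 : ℕ) * B * B / μ ≤ z := by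
    rw [hz, hΛ, Fintype.card_fin]
    exact hz0.trans (by exact_mod_cast hb)
  have z2 : 0 ≤ 24 * (d + 1 : ℕ) * B * B / μ := by positivity
  have z3 := abs_nonneg R
  have z4 : 0 < z := by linarith
  have z5 : ∀ x, x ≤ z → (1 / z) ^ 2 * x ≤ 1 := fun x hx => by
    rw [div_pow, one_pow, one_div, inv_mul_le_iff₀ (by positivity)]
    nlinarith
  have := build2 C (A := 1 / z) ρ0 hB (by positivity) (z5 _ (by linarith))
    ((z5 _ (by linarith [le_abs_self R])).trans (by linarith)) (by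
      have := mul_le_mul_of_nonneg_left (z5 (24 * (d + 1 : ℕ) * B * B / μ) (by linarith)) μ0.le
      rw [mul_one] at this
      refine le_trans (le_of_eq ?_) this
      field_simp) h1 h2 hγ (by
      have := ht (t + 1) (Nat.le_succ t)
      rw [div_pow, div_lt_div_iff₀ (by positivity) (by positivity)] at this
      rw [hΛ, ← hδ, Nat.cast_pow, ← pow_mul, mul_comm (t + 1), pow_mul]
      norm_num at this ⊢
      linarith) hH1 hH2 (by rw [← hz, one_div_mul_cancel z4.ne'])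
    (m := m) (by
      simp only [Fintype.card_prod, hΩ, hL, hΛ, hJ, Fintype.card_fin, ZMod.card]
      refine le_trans (le_of_eq ?_) hm
      ring)
  rwa [show Fintype.card ((Fin 4 × L × Λ × ZMod (d + 1)) × (Λ × Fin N)) =
    4 * (q * (2 ^ (t + 1) * (d + 1))) * (2 ^ (t + 1) * N) by simp [hL, hΛ]] at this

theorem low1 {d : ℕ} (hd : 0 < d) {J : Type} [Fintype J] {v : Fin 4 → ZMod (d + 1) → Fin 3 → J → ℝ}
    {ρ η' μ R : ℝ} (C : Core v ρ η' μ R) (hJ : Fintype.card J = 4 * d) (ρ0 : 0 < ρ) (η0 : 0 < η')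
    (μ0 : 0 < μ) {η : ℝ} (hη : 0 < η) : ∃ m0 : ℕ, ∀ m, m0 ≤ m →
    ∃ (v : ℕ) (U : Fin v → Submodule ℝ (EuclideanSpace ℝ (Fin m))),
      ((∀ i, Module.finrank ℝ (U i) = 3) ∧ ∀ i j, i ≠ j → ∀ u ∈ U i,
        ‖(U j).starProjection u‖ ^ 2 = (1 / (1 + ρ)) ^ 2 * ‖u‖ ^ 2) ∧
      (d + 1) / d * (m : ℝ) ≤ (1 + η) ^ 4 * v := by
  obtain ⟨n, z0, n0, hn⟩ := low0 C hJ ρ0 η0 μ0
  obtain ⟨x0, hx⟩ := had_dense hη
  have d0 : (0 : ℝ) < d := by exact_mod_cast hd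
  have n1 : (0 : ℝ) < n := by exact_mod_cast n0
  have lim : Tendsto (fun m : ℕ => √((m : ℝ) / (4 * d * (1 + η)))) atTop atTop :=
    Real.tendsto_sqrt_atTop.comp (tendsto_natCast_atTop_atTop.atTop_div_const (by positivity))
  obtain ⟨m0, hm0⟩ := eventually_atTop.1 ((((lim.eventually_ge_atTop (x0 * (n * n))).and
    (lim.eventually_ge_atTop ((16 * d + 12 * n * (d + 1)) / (4 * d * η)))).and
    (lim.eventually_ge_atTop ((1 + η) ^ 2 * (n + 1) / η))).and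
    (lim.eventually_ge_atTop ((1 + η) * (z0 + (n + 1)))))
  refine ⟨m0, fun m hm => ?_⟩
  obtain ⟨⟨⟨a1, a2⟩, a3⟩, a4⟩ := hm0 m hm
  have s2 : √((m : ℝ) / (4 * d * (1 + η))) ^ 2 * (4 * d * (1 + η)) = m := by
    rw [Real.sq_sqrt (by positivity), div_mul_cancel₀ _ (by positivity)]
  have s0 := Real.sqrt_nonneg ((m : ℝ) / (4 * d * (1 + η)))
  generalize √((m : ℝ) / (4 * d * (1 + η))) = s at a1 a2 a3 a4 s2 s0
  obtain ⟨N, hN, b1, b2⟩ := hx (s / (n * n)) (by rwa [le_div_iff₀ (by positivity)])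
  rw [le_div_iff₀ (by positivity)] at b1
  rw [div_le_iff₀ (by positivity)] at a2 a3 b2
  have b3 : (z0 + (n + 1) : ℝ) ≤ n * (n * N) :=
    le_of_mul_le_mul_left (a := 1 + η) (by linarith) (by positivity)
  have b4 : z0 + (n + 1) ≤ n * (n * N) := by exact_mod_cast b3
  obtain ⟨q, hq⟩ : ∃ q, q + 1 + n = n * (n * N) := ⟨n * (n * N) - (n + 1), by omega⟩
  have b5 : (q : ℝ) + 1 + n = n * (n * N) := by exact_mod_cast hq
  have q0 : (0 : ℝ) ≤ q := Nat.cast_nonneg q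
  have q1 : (q : ℝ) ≤ s := by linarith
  obtain ⟨U, hU⟩ := hn N q m hN hq (by omega) (by
    have e1 := mul_le_mul_of_nonneg_left (mul_self_le_mul_self q0 q1) d0.le
    have e2 := mul_le_mul a2 q1 q0 (by positivity)
    have : (4 * ((q * q + 4 * q) * d) + 3 * (4 * (q * (n * (d + 1)))) : ℝ) ≤ m := by linarith
    exact_mod_cast this)
  refine ⟨_, U, hU, ?_⟩
  push_cast
  obtain ⟨z, hz⟩ : ∃ z : ℝ, z = n * (n * N) := ⟨_, rfl⟩
  have z1 : s ≤ (1 + η) * z := by rw [hz]; linarith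
  have z2 : z ≤ (1 + η) * q := by
    have : (1 + η) * ((1 + η) * (n + 1)) ≤ (1 + η) * (η * z) := by nlinarith
    have := le_of_mul_le_mul_left this (by positivity)
    rw [← hz] at b5
    nlinarith
  have z0 : 0 ≤ z := by rw [hz]; positivity
  have z3 : s * s ≤ (1 + η) * z * ((1 + η) * ((1 + η) * q)) :=
    mul_le_mul z1 (z1.trans (mul_le_mul_of_nonneg_left z2 (by positivity))) s0 (by positivity)
  have z4 := mul_le_mul_of_nonneg_left z3 (show 0 ≤ 4 * (d + 1 : ℝ) * (1 + η) by positivity)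
  rw [← s2, div_mul_eq_mul_div, div_le_iff₀ d0]
  rw [hz] at z4
  nlinarith [mul_le_mul_of_nonneg_right z4 d0.le]

end Pool.Agent.P.MP_c2263a_gt.All
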