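import Pool.Agent.P.MP_c2263a_gt.Fix.Lower

/-! Core systems of vectors for equi-isoclinic 3-planes, and small lemmas on forms. -/

set_option autoImplicit false

namespace Pool.Agent.P.MP_c2263a_gt.All

open Finset Matrix Pool.Agent.P.MP_c2263a_gt.Fix

theorem rot3 (X : Fin 3 → Fin 3 → ℝ) (hX : ∀ a b, X a b = -X b a) {θ c : ℝ}
    (hc : 2 * c = θ ^ 2 + c ^ 2 * ((∑ a, ∑ e, X a e * X a e) / 2)) (a b : Fin 3) :
    ∑ e, ((if a = e then 1 else 0) - c * (∑ d, X a d * X e d) + θ * X a e) *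
      ((if b = e then 1 else 0) - c * (∑ d, X b d * X e d) + θ * X b e) =
      if a = b then 1 else 0 := by
  have h0 : X 0 0 = 0 := by linarith [hX 0 0]
  have h1 : X 1 1 = 0 := by linarith [hX 1 1]
  have h2 : X 2 2 = 0 := by linarith [hX 2 2]
  have key : ∑ e, ((if a = e then 1 else 0) - c * (∑ d, X a d * X e d) + θ * X a e) *
      ((if b = e then 1 else 0) - c * (∑ d, X b d * X e d) + θ * X b e) =
      (if a = b then 1 else 0) + (θ ^ 2 + c ^ 2 * ((∑ a, ∑ e, X a e * X a e) / 2) - 2 * c) *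
        ∑ d, X a d * X b d := by
    fin_cases a <;> fin_cases b <;>
      simp [Fin.sum_univ_three, h0, h1, h2, hX 1 0, hX 2 0, hX 2 1] <;> ring
  rw [key, ← hc, sub_self, zero_mul, add_zero]

/-- the second order coefficient of a small rotation -/
noncomputable def cf (A n : ℝ) : ℝ := A ^ 2 / (1 + √(1 - A ^ 2 * n))

theorem cf_spec {A n : ℝ} (h : A ^ 2 * n ≤ 1) :
    0 ≤ cf A n ∧ cf A n ≤ A ^ 2 ∧ 2 * cf A n = A ^ 2 + cf A n ^ 2 * n := by
  have r0 := Real.sqrt_nonneg (1 - A ^ 2 * n)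
  have r1 := Real.sq_sqrt (show 0 ≤ 1 - A ^ 2 * n by linarith)
  unfold cf
  generalize √(1 - A ^ 2 * n) = r at r0 r1
  refine ⟨by positivity, div_le_self (sq_nonneg A) (by linarith), ?_⟩
  field_simp
  linear_combination (-A ^ 2) * r1

theorem form_ge {I I' : Type} [Fintype I] [Fintype I'] (E : I → I' → ℝ) {κ : ℝ}
    (h : ∀ i j, |E i j| ≤ κ) (x : I → ℝ) (y : I' → ℝ) :
    -(κ / 2 * (Fintype.card I' * ∑ i, x i * x i + Fintype.card I * ∑ j, y j * y j)) ≤
      ∑ i, ∑ j, x i * E i j * y j := by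
  have e : -(κ / 2 * (Fintype.card I' * ∑ i, x i * x i + Fintype.card I * ∑ j, y j * y j)) =
      ∑ i, ∑ j, -(κ / 2 * (x i * x i + y j * y j)) := by
    simp only [mul_add, neg_add, sum_add_distrib, sum_neg_distrib, sum_const, card_univ,
      nsmul_eq_mul, ← mul_sum]
    ring
  rw [e]
  refine sum_le_sum fun i _ => sum_le_sum fun j _ => ?_
  obtain ⟨h1, h2⟩ := abs_le.1 (h i j)
  nlinarith [mul_nonneg (sub_nonneg.2 h1) (sq_nonneg (x i + y j)),
    mul_nonneg (sub_nonneg.2 h2) (sq_nonneg (x i - y j))]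

section bil

variable {Ω S : Type} [Fintype Ω] [Fintype S]

/-- a bilinear form with a kernel acting on the second coordinate -/
def bil (K : S → S → ℝ) (G G' : Ω × S → ℝ) : ℝ := ∑ z, ∑ u, ∑ u', G (z, u) * K u u' * G' (z, u')

theorem bil_symm (K K' : S → S → ℝ) (h : ∀ u u', K u u' = K' u' u) (G G' : Ω × S → ℝ) :
    bil K G G' = bil K' G' G := by
  unfold bil
  refine sum_congr rfl fun z _ => ?_
  rw [sum_comm]
  exact sum_congr rfl fun u _ => sum_congr rfl fun u' _ => by rw [h]; ring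

theorem bil_ge (K : S → S → ℝ) {κ : ℝ} (h : ∀ u u', |K u u'| ≤ κ) (G G' : Ω × S → ℝ) :
    -(κ / 2 * (Fintype.card S * (G ⬝ᵥ G) + Fintype.card S * (G' ⬝ᵥ G'))) ≤ bil K G G' := by
  refine le_trans (le_of_eq ?_) (sum_le_sum fun z _ => form_ge K h (fun u => G (z, u))
    fun u => G' (z, u))
  simp only [dotProduct, Fintype.sum_prod_type, mul_add, neg_add, sum_add_distrib,
    sum_neg_distrib, ← mul_sum]

theorem bil_sum {T T' : Type} [Fintype T] [Fintype T'] (K : S → S → ℝ) (f : T → ℝ) (f' : T' → ℝ)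
    (G : T → Ω × S → ℝ) (G' : T' → Ω × S → ℝ) :
    ∑ i, ∑ j, f i * f' j * bil K (G i) (G' j) = bil K (∑ i, f i • G i) (∑ j, f' j • G' j) := by
  have e : ∀ G G' : Ω × S → ℝ, bil K G G' = G ⬝ᵥ fun z => ∑ u', K z.2 u' * G' (z.1, u') :=
    fun G G' => by
      simp only [bil, dotProduct, Fintype.sum_prod_type, mul_sum, mul_assoc]
  have e2 : (fun z : Ω × S => ∑ u', K z.2 u' * (∑ j, f' j • G' j) (z.1, u')) =
      ∑ j, f' j • fun z : Ω × S => ∑ u', K z.2 u' * G' j (z.1, u') := by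
    funext z
    simp only [Finset.sum_apply, Pi.smul_apply, smul_eq_mul, mul_sum]
    rw [sum_comm]
    exact sum_congr rfl fun j _ => sum_congr rfl fun u _ => by ring
  simp only [e]
  rw [e2, sum_dotProduct]
  refine sum_congr rfl fun i _ => ?_
  rw [dotProduct_sum]
  refine sum_congr rfl fun j _ => ?_
  rw [smul_dotProduct, dotProduct_smul, smul_eq_mul, smul_eq_mul, mul_assoc]

theorem bil_vec {L X : Type} [Fintype X] [DecidableEq X] [DecidableEq Ω]
    {ι : Fin 4 → L → X → Ω} {g h : Fin 4} {l l' : L} {y y' : X}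
    (h2 : ∀ x x', ι g l x = ι h l' x' ↔ x = y ∧ x' = y') (K : S → S → ℝ) (F F' : X → S → ℝ) :
    bil K (vec ι g l F) (vec ι h l' F') = ∑ u, ∑ u', F y u * K u u' * F' y' u' := by
  have e : bil K (vec ι g l F) (vec ι h l' F') =
      vec ι g l F ⬝ᵥ vec ι h l' fun x u => ∑ u', K u u' * F' x u' := by
    simp only [bil, dotProduct, Fintype.sum_prod_type, mul_assoc, ← mul_sum]
    refine sum_congr rfl fun z _ => sum_congr rfl fun u _ => ?_
    congr 1
    simp only [Fix.vec, mul_sum, mul_ite, mul_zero]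
    rw [sum_comm]
    simp only [sum_ite_irrel, sum_const_zero]
  rw [e, vec_diff h2]
  simp only [dotProduct, mul_sum, mul_assoc]

end bil

theorem asm2 {P D E : Type} [Fintype P] [Fintype D] [Fintype E] {α : ℝ} (h0 : 0 < α) (h1 : α < 1)
    (y : P → Fin 3 → D → ℝ) (r : P → Fin 3 → E → ℝ)
    (a1 : ∀ p a b, y p a ⬝ᵥ y p b + r p a ⬝ᵥ r p b = if a = b then 1 / α else 0)
    (a2 : ∀ p p', p ≠ p' → ∀ a b, ∑ c, (y p a ⬝ᵥ y p' c + r p a ⬝ᵥ r p' c) *
      (y p b ⬝ᵥ y p' c + r p b ⬝ᵥ r p' c) = if a = b then 1 else 0)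
    {m : ℕ} (hm : Fintype.card D + Fintype.card E ≤ m) :
    ∃ U : Fin (Fintype.card P) → Submodule ℝ (EuclideanSpace ℝ (Fin m)),
      (∀ i, Module.finrank ℝ (U i) = 3) ∧
      ∀ i j, i ≠ j → ∀ u ∈ U i, ‖(U j).starProjection u‖ ^ 2 = α ^ 2 * ‖u‖ ^ 2 := by
  obtain ⟨σ, hσ⟩ : ∃ σ : ℝ, σ * σ = α := ⟨√α, Real.mul_self_sqrt h0.le⟩
  obtain ⟨x, hx⟩ := embed (P := P × Fin 3) (T := D ⊕ E) (m := m)
    (fun p => Sum.elim (fun t => σ * y p.1 p.2 t) fun t => σ * r p.1 p.2 t)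
    (by simpa only [Fintype.card_sum] using hm)
  have key : ∀ p a p' b, inner ℝ (x (p, a)) (x (p', b)) =
      α * (y p a ⬝ᵥ y p' b + r p a ⬝ᵥ r p' b) := by
    intro p a p' b
    rw [hx, Fintype.sum_sum_type, mul_add]
    simp only [Sum.elim_inl, Sum.elim_inr, dotProduct, mul_sum]
    congr 1 <;> exact sum_congr rfl fun c _ => by rw [← hσ]; ring
  obtain ⟨U, -, hU⟩ := of_frames (fun i a => x ((Fintype.equivFin P).symm i, a)) (α ^ 2)
    (by nlinarith) (fun i a b => by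
      rw [key, a1]
      split_ifs
      · rw [mul_one_div_cancel h0.ne']
      · ring) fun i j e a b => by
      simp only [key]
      rw [sum_congr rfl fun e _ => mul_mul_mul_comm _ _ _ _, ← mul_sum,
        a2 _ _ ((Fintype.equivFin P).symm.injective.ne e)]
      split_ifs <;> ring
  exact ⟨U, hU⟩

variable {k : ℕ} [NeZero k] {J : Type} [Fintype J]

/-- products of rows of a Gram block -/
def sq2 (v : Fin 4 → ZMod k → Fin 3 → J → ℝ) (g h : Fin 4) (s t : ZMod k) (a b : Fin 3) : ℝ :=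
  ∑ c, v g s a ⬝ᵥ v h t c * (v g s b ⬝ᵥ v h t c)

/-- four clusters of frames with skew cross blocks and a positive margin -/
structure Core (v : Fin 4 → ZMod k → Fin 3 → J → ℝ) (ρ η μ L : ℝ) : Prop where
  shift : ∀ g h s t γ a b, v g (s + γ) a ⬝ᵥ v h (t + γ) b = v g s a ⬝ᵥ v h t b
  diag : ∀ g s a b, v g s a ⬝ᵥ v g s b = if a = b then ρ else 0
  orth : ∀ g s t, s ≠ t → ∀ a b, ∑ c, ((if a = c then 1 else 0) + v g s a ⬝ᵥ v g t c) *
    ((if b = c then 1 else 0) + v g s b ⬝ᵥ v g t c) = if a = b then 1 else 0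
  gap : ∀ g (f : Fin 3 → ZMod k → ℝ),
    η * ∑ a, (∑ s, f a s * f a s - (∑ s, f a s) * (∑ s, f a s) / k) ≤
      ∑ a, ∑ b, ∑ s, ∑ t, f a s * f b t * (v g s a ⬝ᵥ v g t b)
  skew : ∀ g h, g ≠ h → ∀ s t a b, v g s a ⬝ᵥ v h t b = -(v g s b ⬝ᵥ v h t a)
  marg : ∀ F : Fin 4 → Fin 3 → ℝ, μ * ∑ g, ∑ a, F g a * F g a - L * ∑ a, (∑ g, F g a) ^ 2 ≤
    -∑ g, ∑ a, ∑ h, ∑ b, F g a * (if g = h then 0 else ∑ t, sq2 v g h 0 t a b) * F h b

/-- the second order part of the cross rotations -/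
noncomputable def ker (A : ℝ) (v : Fin 4 → ZMod k → Fin 3 → J → ℝ) (g h : Fin 4) (a b : Fin 3)
    (s t : ZMod k) : ℝ := -(cf A ((∑ e, sq2 v g h s t e e) / 2) * sq2 v g h s t a b)

/-- centred unit vectors -/
noncomputable def wc (s u : ZMod k) : ℝ := (if s = u then 1 else 0) - 1 / (k : ℝ)

theorem wc_dot (s t : ZMod k) : wc s ⬝ᵥ wc t = (if s = t then 1 else 0) - 1 / (k : ℝ) := by
  have k0 : (k : ℝ) ≠ 0 := by exact_mod_cast NeZero.ne k
  simp only [dotProduct, wc, mul_sub, sub_mul, sum_sub_distrib, ite_mul, mul_ite, one_mul, mul_one,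
    zero_mul, mul_zero, sum_ite_eq, mem_univ, if_true, sum_const, card_univ, ZMod.card,
    nsmul_eq_mul]
  field_simp
  ring

theorem wc_form (K : ZMod k → ZMod k → ℝ) (hK : ∀ s t γ, K (s + γ) (t + γ) = K s t)
    (s t : ZMod k) : ∑ u, ∑ u', wc s u * K u u' * wc t u' = K s t - (∑ x, K 0 x) / k := by
  have k0 : (k : ℝ) ≠ 0 := by exact_mod_cast NeZero.ne k
  have r1 : ∀ u, ∑ u', K u u' = ∑ x, K 0 x := fun u => by
    rw [← Equiv.sum_comp (Equiv.addRight u) fun u' => K u u']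
    exact sum_congr rfl fun x _ => by simpa using hK 0 x u
  have r2 : ∑ u, K u t = ∑ x, K 0 x := by
    rw [← Equiv.sum_comp (Equiv.subLeft t) fun u => K u t]
    exact sum_congr rfl fun x _ => by simpa using hK 0 x (t - x)
  simp only [wc, mul_sub, sub_mul, sum_sub_distrib, ite_mul, mul_ite, one_mul, mul_one,
    zero_mul, mul_zero, sum_ite_eq, sum_ite_irrel, sum_const_zero, mem_univ, if_true,
    ← mul_sum, ← sum_mul, r1, r2, sum_const, card_univ, ZMod.card, nsmul_eq_mul]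
  field_simp
  ring

variable {v : Fin 4 → ZMod k → Fin 3 → J → ℝ} {ρ η μ L : ℝ}

theorem Core.sq2_symm (C : Core v ρ η μ L) {g h : Fin 4} (e : g ≠ h) (s t : ZMod k) (a b : Fin 3) :
    sq2 v g h s t a b = sq2 v h g t s b a := by
  refine sum_congr rfl fun c _ => ?_
  rw [dotProduct_comm (v h t b), dotProduct_comm (v h t a), C.skew g h e s t c b,
    C.skew g h e s t c a]
  ring

theorem Core.ker_symm (C : Core v ρ η μ L) (A : ℝ) {g h : Fin 4} (e : g ≠ h) (a b : Fin 3)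
    (s t : ZMod k) : ker A v g h a b s t = ker A v h g b a t s := by
  simp only [ker, C.sq2_symm e s t]

theorem Core.ker_shift (C : Core v ρ η μ L) (A : ℝ) (g h : Fin 4) (a b : Fin 3)
    (s t γ : ZMod k) : ker A v g h a b (s + γ) (t + γ) = ker A v g h a b s t := by
  simp only [ker, sq2, C.shift]

omit [NeZero k] in
theorem half_le {B : ℝ} (hB : ∀ g h s t a b, |sq2 v g h s t a b| ≤ B) (g h : Fin 4)
    (s t : ZMod k) : 0 ≤ (∑ e, sq2 v g h s t e e) / 2 ∧ (∑ e, sq2 v g h s t e e) / 2 ≤ 2 * B := by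
  have h0 := fun e => le_of_abs_le (hB g h s t e e)
  have h1 : ∀ e, 0 ≤ sq2 v g h s t e e := fun e => sum_nonneg fun c _ => mul_self_nonneg _
  rw [Fin.sum_univ_three]
  constructor <;> linarith [h0 0, h0 1, h0 2, h1 0, h1 1, h1 2]

omit [NeZero k] in
theorem ker_le {A B : ℝ} (hB : ∀ g h s t a b, |sq2 v g h s t a b| ≤ B) (hA : A ^ 2 * (2 * B) ≤ 1)
    (g h : Fin 4) (a b : Fin 3) (s t : ZMod k) : |ker A v g h a b s t| ≤ A ^ 2 * B ∧
      |ker A v g h a b s t + A ^ 2 / 2 * sq2 v g h s t a b| ≤ A ^ 2 * A ^ 2 * B * B := by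
  obtain ⟨n0, n1⟩ := half_le hB g h s t
  obtain ⟨c0, c1, c2⟩ := cf_spec ((mul_le_mul_of_nonneg_left n1 (sq_nonneg A)).trans hA)
  have b0 := hB g h s t a b
  unfold ker
  generalize (∑ e, sq2 v g h s t e e) / 2 = n at *
  generalize cf A n = c at *
  constructor
  · rw [abs_neg, abs_mul, abs_of_nonneg c0]
    exact mul_le_mul c1 b0 (abs_nonneg _) (sq_nonneg A)
  · rw [show -(c * sq2 v g h s t a b) + A ^ 2 / 2 * sq2 v g h s t a b =
      -(c ^ 2 * n / 2 * sq2 v g h s t a b) by linear_combination (-sq2 v g h s t a b / 2) * c2,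
      abs_neg, abs_mul, abs_of_nonneg (by positivity)]
    refine mul_le_mul ?_ b0 (abs_nonneg _) (mul_nonneg (by positivity) (by linarith))
    have := mul_le_mul (mul_self_le_mul_self c0 c1) n1 n0 (by positivity)
    nlinarith

theorem Core.mean (C : Core v ρ η μ L) {A B : ℝ} (hB : ∀ g h s t a b, |sq2 v g h s t a b| ≤ B)
    (hA : A ^ 2 * (2 * B) ≤ 1) (h1 : A ^ 2 * L ≤ 2 * k) (h2 : 24 * k * (A ^ 2 * B * B) ≤ μ)
    (F : Fin 4 × Fin 3 → ℝ) : 0 ≤ ∑ i, ∑ j, F i * F j * ((if i.2 = j.2 then 1 else 0) +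
      if i.1 = j.1 then 0 else (∑ x, ker A v i.1 j.1 i.2 j.2 0 x) / k) := by
  have k0 : (0 : ℝ) < k := by exact_mod_cast NeZero.pos k
  have B0 : 0 ≤ B := (abs_nonneg _).trans (hB 0 0 0 0 0 0)
  have m1 := C.marg fun g a => F (g, a)
  have m2 := form_ge (fun i j : Fin 4 × Fin 3 => if i.1 = j.1 then 0 else
    (∑ x, (ker A v i.1 j.1 i.2 j.2 0 x + A ^ 2 / 2 * sq2 v i.1 j.1 0 x i.2 j.2)) / k)
    (κ := A ^ 2 * A ^ 2 * B * B) (fun i j => by
      split_ifs
      · rw [abs_zero]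
        positivity
      · rw [abs_div, abs_of_pos k0, div_le_iff₀ k0]
        refine (abs_sum_le_sum_abs _ _).trans ((sum_le_sum fun x _ =>
          (ker_le hB hA _ _ _ _ _ _).2).trans_eq ?_)
        rw [sum_const, card_univ, ZMod.card, nsmul_eq_mul, mul_comm]) F F
  have e1 : ∑ i, ∑ j, F i * F j * (if i.2 = j.2 then (1 : ℝ) else 0) =
      ∑ a, (∑ g, F (g, a)) ^ 2 := by
    simp only [Fintype.sum_prod_type_right, mul_ite, mul_one, mul_zero, sq, sum_mul_sum]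
    refine sum_congr rfl fun a _ => sum_congr rfl fun g _ => ?_
    rw [sum_comm]
    exact sum_congr rfl fun h _ => by simp
  have e2 : ∑ i, ∑ j, F i * F j * ((if i.2 = j.2 then 1 else 0) +
      if i.1 = j.1 then 0 else (∑ x, ker A v i.1 j.1 i.2 j.2 0 x) / k) =
      ∑ i, ∑ j, F i * F j * (if i.2 = j.2 then (1 : ℝ) else 0) +
      ∑ i, ∑ j, F i * (if i.1 = j.1 then 0 else
        (∑ x, (ker A v i.1 j.1 i.2 j.2 0 x + A ^ 2 / 2 * sq2 v i.1 j.1 0 x i.2 j.2)) / (k : ℝ)) *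
          F j -
      A ^ 2 / (2 * k) * ∑ i, ∑ j, F i *
        (if i.1 = j.1 then 0 else ∑ t, sq2 v i.1 j.1 0 t i.2 j.2) * F j := by
    simp only [mul_sum (a := A ^ 2 / (2 * k)), ← sum_add_distrib (s := univ (α := Fin 4 × Fin 3)),
      ← sum_sub_distrib]
    refine sum_congr rfl fun i _ => sum_congr rfl fun j _ => ?_
    by_cases e : i.1 = j.1
    · simp only [if_pos e]
      ring
    · simp only [if_neg e, sum_add_distrib, ← mul_sum]
      field_simp
      ring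
  rw [e2, e1]
  simp only [Fintype.sum_prod_type, Fintype.card_prod, Fintype.card_fin] at m2 ⊢
  have s0 : 0 ≤ ∑ a, (∑ g, F (g, a)) ^ 2 := sum_nonneg fun _ _ => sq_nonneg _
  have s1 : 0 ≤ ∑ g, ∑ a, F (g, a) * F (g, a) :=
    sum_nonneg fun _ _ => sum_nonneg fun _ _ => mul_self_nonneg _
  have m3 := mul_le_mul_of_nonneg_left m1 (show 0 ≤ A ^ 2 / (2 * k) by positivity)
  have m4 : A ^ 2 / (2 * k) * L ≤ 1 := by
    rw [div_mul_eq_mul_div, div_le_one (by positivity)]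
    exact h1
  have m5 : 12 * (A ^ 2 * A ^ 2 * B * B) ≤ A ^ 2 / (2 * k) * μ := by
    rw [div_mul_eq_mul_div, le_div_iff₀ (by positivity)]
    nlinarith [mul_le_mul_of_nonneg_left h2 (sq_nonneg A)]
  push_cast at m2
  nlinarith [mul_le_mul_of_nonneg_right m4 s0, mul_le_mul_of_nonneg_right m5 s1]

end Pool.Agent.P.MP_c2263a_gt.All
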