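import Pool.Agent.P.MP_c2263a_gt.All.Alg
import Pool.Agent.P.MP_c2263a_gt.All.Core

/-! A core system from a family of rotated edges. -/

set_option autoImplicit false

namespace Pool.Agent.P.MP_c2263a_gt.All

open Finset Matrix ComplexConjugate Complex Pool.Agent.P.MP_c2263a_gt.Fix

variable {k : ℕ} [NeZero k] {Z : Type} [Fintype Z]

/-- the part of `f` of colour `p` -/
def cut (c : Z → Fin 3) (f : Z → ℝ) (p : Fin 3) (z : Z) : ℝ := if c z = p then f z else 0

/-- a family of rotated edges -/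
structure Fam (y : Z → ZMod k) (c : Z → Fin 3) (t β : Z → ℝ) (ν : Z ≃ Z) (a κ0 : ℝ)
    (j0 : ZMod k) : Prop where
  inj : Function.Injective y
  ne : ∀ z, y z ≠ 0
  yν : ∀ z, y (ν z) = -y z
  cν : ∀ z, c (ν z) = c z
  tν : ∀ z, t (ν z) = t z
  bν : ∀ z, β (ν z) = -β z
  t0 : ∀ z, 0 ≤ t z
  bt : ∀ z, β z ^ 2 = t z * (2 - t z)
  ts : ∀ p, ∑ z, cut c t p z = 2 * a
  bs : ∀ p, (∑ z, |cut c β p z|) ^ 2 ≤ κ0
  zero : ∀ p, ft y (cut c β p) j0 = 0
  gap : ∑ z, (t z + |β z|) < 2 * k - 4 * a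

/-- even Fourier coefficients -/
noncomputable def cq (y : Z → ZMod k) (c : Z → Fin 3) (t : Z → ℝ) (j : ZMod k) (p : Fin 3) : ℝ :=
  (ft y (cut c t p) j).re

/-- odd Fourier coefficients -/
noncomputable def kp (y : Z → ZMod k) (c : Z → Fin 3) (β : Z → ℝ) (j : ZMod k) (p : Fin 3) : ℝ :=
  (ft y (cut c β p) j).im

variable {y : Z → ZMod k} {c : Z → Fin 3} {t β : Z → ℝ} {ν : Z ≃ Z} {a κ0 : ℝ} {j0 : ZMod k}

theorem cq_neg (j : ZMod k) : cq y c t (-j) = cq y c t j := by
  funext p
  rw [cq, ft_sym, conj_re, cq]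

theorem kp_neg (j : ZMod k) : kp y c β (-j) = fun p => -kp y c β j p := by
  funext p
  rw [kp, ft_sym, conj_im, kp]

theorem Fam.cq_eq (F : Fam y c t β ν a κ0 j0) (j : ZMod k) (p : Fin 3) :
    (cq y c t j p : ℂ) = ft y (cut c t p) j := by
  rw [cq, ← conj_eq_iff_re, ft_neg F.yν]
  simp only [cut, F.cν, F.tν]
  rfl

theorem Fam.kp_eq (F : Fam y c t β ν a κ0 j0) (j : ZMod k) (p : Fin 3) :
    I * kp y c β j p = ft y (cut c β p) j := by
  have h : conj (ft y (cut c β p) j) = -ft y (cut c β p) j := by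
    rw [ft_neg F.yν, ft, ft, ← sum_neg_distrib]
    refine sum_congr rfl fun z _ => ?_
    simp only [cut, F.cν, F.bν]
    split_ifs <;> simp
  have h2 := congrArg re h
  rw [conj_re, neg_re] at h2
  apply Complex.ext
  · simp only [mul_re, I_re, I_im, ofReal_re, ofReal_im]
    linarith
  · simp [kp]

theorem Fam.cq_le (F : Fam y c t β ν a κ0 j0) (j : ZMod k) (p : Fin 3) :
    |cq y c t j p| ≤ 2 * a := by
  refine (abs_re_le_norm _).trans ((ft_norm _ _ _).trans_eq ?_)
  rw [← F.ts p]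
  refine sum_congr rfl fun z _ => abs_of_nonneg ?_
  unfold cut
  split_ifs
  exacts [F.t0 z, le_rfl]

theorem Fam.cq_zero (F : Fam y c t β ν a κ0 j0) (p : Fin 3) : cq y c t 0 p = 2 * a := by
  rw [← F.ts p]
  simp [cq, ft, ch_zero]

theorem Fam.kp_le (F : Fam y c t β ν a κ0 j0) (j : ZMod k) (p : Fin 3) :
    kp y c β j p ^ 2 ≤ κ0 := by
  refine le_trans ?_ (F.bs p)
  rw [← sq_abs]
  exact pow_le_pow_left₀ (abs_nonneg _) ((abs_im_le_norm _).trans (ft_norm _ _ _)) 2

theorem kp_zero (p : Fin 3) : kp y c β 0 p = 0 := by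
  simp [kp, ft, ch_zero]

theorem Fam.kp_orth (F : Fam y c t β ν a κ0 j0) {p q : Fin 3} (e : p ≠ q) :
    ∑ j, kp y c β j p * kp y c β j q = 0 := by
  have h := ft_orth F.inj (cut c β p) (cut c β q) fun z => by
    unfold cut
    split_ifs with h1 h2
    · exact absurd (h1.symm.trans h2) e
    all_goals simp
  have h2 := congrArg re h
  simp only [← F.kp_eq, re_sum] at h2
  simpa using h2

theorem Fam.data (F : Fam y c t β ν a κ0 j0) (hj : j0 ≠ 0) (hk : 6 ≤ k) (a1 : a ≤ 1 / 2) {ε μ : ℝ}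
    (ε0 : 0 ≤ ε) (ε1 : ε ≤ 1) (hκ : κ0 ≤ ε * (2 * k - 4 - 1))
    (hμ : μ = 2 * (2 * k - 4 - ε) * (2 * k - 4 - 2 * ε) - ε * (2 + 2 * ε) -
      (k - 2) * (2 * k * (2 + 2 * ε))) :
    ∃ U W N : ZMod k → Fin 3 → Fin 3 → ℝ, (∀ j, U (-j) = U j) ∧ (∀ j, W (-j) = W j) ∧
      U 0 = 0 ∧ W 0 = 0 ∧
      (∀ j p e f, U j p e * U j p f + kp y c β j p ^ 2 * (W j p e * W j p f) =
        if e = f then N j p e else 0) ∧
      (∀ j p e f, kp y c β j p ^ 2 = 0 ∨ U j p e * W j p f - W j p e * U j p f = Jm p e f) ∧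
      (∀ j e, ∑ p, N j p e = 2 * k - 4 * a + (if j = 0 then k * (-2 : ℝ) else 0) +
        (cq y c t j (e + 1) + cq y c t j (e + 2))) ∧
      ∀ s e, μ ≤ ∑ j, mg (N j) s e := by
  classical
  have k6 : (6 : ℝ) ≤ k := by exact_mod_cast hk
  choose! U W N hG using good_exists (c := 2 * k - 4) (by linarith) ε0 ε1
  obtain ⟨j1, -, h1⟩ := exists_mem_notMem_of_card_lt_card (s := {0, j0, -j0}) (t := univ)
    (lt_of_le_of_lt card_le_three (by rw [card_univ, ZMod.card]; omega))
  obtain ⟨j2, -, h2⟩ := exists_mem_notMem_of_card_lt_card (s := {0, j0, -j0, j1, -j1}) (t := univ)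
    (lt_of_le_of_lt card_le_five (by rw [card_univ, ZMod.card]; omega))
  simp only [mem_insert, mem_singleton, not_or] at h1 h2
  let τ : ZMod k → Fin 3 := fun j =>
    if j = j0 ∨ j = -j0 then 0 else if j = j1 ∨ j = -j1 then 2 else 1
  have τn : ∀ j, τ (-j) = τ j := fun j => by
    simp only [τ, neg_eq_iff_eq_neg, neg_neg, or_comm]
  have τs : ∀ r, ∃ j, j ≠ 0 ∧ τ j = r := fun r => by
    fin_cases r
    · exact ⟨j0, hj, by simp [τ]⟩
    · exact ⟨j2, h2.1, by simp [τ, h2]⟩
    · exact ⟨j1, h1.1, by simp [τ, h1]⟩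
  let Q : ZMod k → Fin 3 → ℝ := fun j e => 2 * k - 4 * a + (cq y c t j (e + 1) + cq y c t j (e + 2))
  let K : ZMod k → Fin 3 → ℝ := fun j p => kp y c β j p ^ 2
  have Qb : ∀ j e, 2 * k - 4 ≤ Q j e ∧ Q j e ≤ 2 * k - 4 + 4 := fun j e => by
    obtain ⟨b1, b2⟩ := abs_le.1 (F.cq_le j (e + 1))
    obtain ⟨b3, b4⟩ := abs_le.1 (F.cq_le j (e + 2))
    constructor <;> simp only [Q] <;> linarith
  have Qd : ∀ j e f, Q j e - Q j f ≤ 2 := fun j e f => by
    have b1 := sum3 (cq y c t j) e
    have b2 := sum3 (cq y c t j) f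
    have b3 := (abs_le.1 (F.cq_le j e)).1
    have b4 := (abs_le.1 (F.cq_le j f)).2
    simp only [Q]
    linarith
  have G : ∀ j, Good ε (· + τ j) (Q j) (K j) (U (τ j) (Q j) (K j)) (W (τ j) (Q j) (K j))
      (N (τ j) (Q j) (K j)) := fun j => hG _ _ _ ⟨fun e => (Qb j e).1,
    fun p => ⟨sq_nonneg _, (F.kp_le j p).trans hκ⟩, fun h p => by
      have z0 : kp y c β j0 p = 0 := by rw [kp, F.zero, zero_im]
      have : j = j0 ∨ j = -j0 := by
        by_contra hc
        simp only [τ, if_neg hc] at h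
        split_ifs at h <;> exact absurd h (by decide)
      rcases this with rfl | rfl <;> simp [K, kp_neg, z0]⟩
  have Qn : ∀ j, Q (-j) = Q j := fun j => by simp only [Q, cq_neg]
  have Kn : ∀ j, K (-j) = K j := fun j => by simp only [K, kp_neg, neg_sq]
  refine ⟨fun j => if j = 0 then 0 else U (τ j) (Q j) (K j),
    fun j => if j = 0 then 0 else W (τ j) (Q j) (K j),
    fun j => if j = 0 then 0 else N (τ j) (Q j) (K j), fun j => by simp only [neg_eq_zero, τn, Qn, Kn],
    fun j => by simp only [neg_eq_zero, τn, Qn, Kn], if_pos rfl, if_pos rfl, fun j p e f => ?_,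
    fun j p e f => ?_, fun j e => ?_, fun s e => ?_⟩
  · by_cases h : j = 0
    · simp [h]
    · simp only [if_neg h]
      exact (G j).gram p e f
  · by_cases h : j = 0
    · exact Or.inl (by rw [h, kp_zero]; norm_num)
    · simp only [if_neg h]
      exact (G j).wedge p e f
  · by_cases h : j = 0
    · simp only [h, if_true, F.cq_zero, Pi.zero_apply, sum_const_zero]
      ring
    · simp only [if_neg h, (G j).col, Q, add_zero]
  · obtain ⟨j, j0', hj'⟩ := τs (e - s)
    refine le_trans (le_of_eq ?_) (sum_le_sum (f := fun i => -(2 * k * (2 + 2 * ε)) +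
      (if i = 0 then 2 * k * (2 + 2 * ε) else 0) + if i = j then
        2 * (2 * k - 4 - ε) * (2 * k - 4 - 2 * ε) - ε * (2 + 2 * ε) + 2 * k * (2 + 2 * ε) else 0)
      fun i _ => ?_)
    · simp only [sum_add_distrib, sum_ite_eq', mem_univ, if_true, sum_const, card_univ, ZMod.card,
        nsmul_eq_mul, hμ]
      ring
    · obtain ⟨m1, m2⟩ := (G i).mg_ge ε0 (by linarith) (Qb i) (Qd i) s e
      by_cases h : i = 0
      · simp only [if_pos h, if_neg (show i ≠ j from h ▸ j0'.symm)]
        simp [mg, dd]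
      · simp only [if_neg h]
        split_ifs with h'
        · have := m2 (by rw [h', hj', add_sub_cancel])
          linarith
        · linarith

theorem sum4 {A B C D : Type} [Fintype A] [Fintype B] [Fintype C] [Fintype D]
    (T : A → B → C → D → ℝ) : ∑ a, ∑ b, ∑ c, ∑ d, T a b c d = ∑ d, ∑ c, ∑ a, ∑ b, T a b c d :=
  calc _ = ∑ a, ∑ c, ∑ d, ∑ b, T a b c d :=
        sum_congr rfl fun _ _ => sum_comm.trans (sum_congr rfl fun _ _ => sum_comm)
    _ = ∑ c, ∑ d, ∑ a, ∑ b, T a b c d := sum_comm.trans (sum_congr rfl fun _ _ => sum_comm)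
    _ = _ := sum_comm

theorem Fam.core (F : Fam y c t β ν a κ0 j0) {U W N : ZMod k → Fin 3 → Fin 3 → ℝ} {μ : ℝ}
    (Un : ∀ j, U (-j) = U j) (Wn : ∀ j, W (-j) = W j) (U0 : U 0 = 0) (W0 : W 0 = 0)
    (g1 : ∀ j p e f, U j p e * U j p f + kp y c β j p ^ 2 * (W j p e * W j p f) =
      if e = f then N j p e else 0)
    (g2 : ∀ j p e f, kp y c β j p ^ 2 = 0 ∨ U j p e * W j p f - W j p e * U j p f = Jm p e f)
    (g3 : ∀ j e, ∑ p, N j p e = 2 * k - 4 * a + (if j = 0 then k * (-2 : ℝ) else 0) +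
      (cq y c t j (e + 1) + cq y c t j (e + 2)))
    (g4 : ∀ s e, μ ≤ ∑ j, mg (N j) s e) :
    ∃ (v : Fin 4 → ZMod k → Fin 3 → {j : ZMod k // j ≠ 0} × Fin 4 → ℝ) (L : ℝ),
      Core v (2 * k - 2 - 4 * a) (2 * k - 4 * a - ∑ z, (t z + |β z|)) (μ / k) L := by
  have k0 : (0 : ℝ) < k := by exact_mod_cast NeZero.pos k
  let ζ : ZMod k → Fin 3 → ℤ → Fin 3 → ℂ := fun j => zt (kp y c β j) (U j) (W j)
  have ζn : ∀ j e s p, ζ (-j) e s p = conj (ζ j e s p) := fun j e s p => by
    simp only [ζ, Un, Wn, kp_neg, zt_neg]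
  have ζg := fun j p s hs => zt_gram (e := s) (g1 j p) (g2 j p) hs
  let V : Fin 4 → Fin 3 → ZMod k → Fin 4 → ℂ := fun g e j d =>
    conf g d * ζ j e (sd (ax g d) g) (ax g d)
  have Vs : ∀ g e d, Sym fun j => V g e j d := fun g e d j => by simp [V, ζn]
  have Vn : ∀ g e d j, V g e (-j) d = conj (V g e j d) := Vs
  have V0 : ∀ g e, V g e 0 = 0 := fun g e => by
    funext d
    simp [V, ζ, zt, U0, W0]
  let v : Fin 4 → ZMod k → Fin 3 → {j : ZMod k // j ≠ 0} × Fin 4 → ℝ := fun g s e => hv (V g e) s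
  have gram : ∀ g h s s' e f, v g s e ⬝ᵥ v h s' f =
      fo (fun j => ∑ d, conj (V g e j d) * V h f j d) (s' - s) :=
    fun g h s s' e f => hv_dot (Vs g e) (Vs h f) (V0 g e) s s'
  have same : ∀ g s s' e f, v g s e ⬝ᵥ v g s' f =
      (if s' - s = 0 then (if e = f then 2 * k - 4 * a else 0) else 0) + (if e = f then -2 else 0) +
        ∑ z, if s' - s + y z = 0 then Pm (c z) (sd (c z) g) (t z) (β z) e f else 0 := by
    intro g s s' e f
    rw [gram, ← fo_const, ← fo_delta (if e = f then -2 else 0) (s' - s), ← fo_ft, ← fo_add,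
      ← fo_add]
    congr 1
    funext j
    have e1 : ∀ d, conj (V g e j d) * V g f j d = (conf g d : ℂ) * conf g d *
        (conj (ζ j e (sd (ax g d) g) (ax g d)) * ζ j f (sd (ax g d) g) (ax g d)) := fun d => by
      simp only [V, map_mul, map_intCast]
      ring
    have e2 : ft y (fun z => Pm (c z) (sd (c z) g) (t z) (β z) e f) j =
        (if e = f then ft y (cut c t (e + 1)) j + ft y (cut c t (e + 2)) j else 0) +
          ∑ p, (sd p g * Jm p e f : ℝ) * ft y (cut c β p) j := by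
      simp only [ft, mul_sum]
      rw [sum_comm]
      split_ifs with h
      · rw [← sum_add_distrib, ← sum_add_distrib]
        refine sum_congr rfl fun z _ => ?_
        simp only [Pm, if_pos h, cut, apply_ite ((↑) : ℝ → ℂ), ofReal_zero, ite_mul, mul_ite,
          zero_mul, mul_zero, sum_ite_eq, mem_univ, if_true, ofReal_add, add_mul, ofReal_mul]
        ring
      · rw [zero_add]
        refine sum_congr rfl fun z _ => ?_
        simp only [Pm, if_neg h, cut, apply_ite ((↑) : ℝ → ℂ), ofReal_zero, ite_mul, mul_ite,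
          zero_mul, mul_zero, sum_ite_eq, mem_univ, if_true, zero_add, ofReal_mul]
        ring
    rw [sum_congr rfl fun d _ => e1 d,
      conf_same (fun p => conj (ζ j e (sd p g) p) * ζ j f (sd p g) p) g, e2]
    simp only [ζ, ζg j _ _ (sd_sign _ g), sum_add_distrib, ← F.cq_eq, ← F.kp_eq]
    rw [← add_assoc]
    congr 1
    · by_cases h : e = f
      · simp only [if_pos h]
        rw [← ofReal_sum, g3]
        split_ifs <;> push_cast <;> ring
      · simp [if_neg h]
    · exact sum_congr rfl fun p _ => by push_cast; ring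
  have cross : ∀ g h, g ≠ h → ∀ e f j, ∑ d, conj (V g e j d) * V h f j d = tau g h *
      (ζ j e (sd (ax g h + 1) h) (ax g h + 1) * ζ j f (sd (ax g h + 2) h) (ax g h + 2) -
        ζ j e (sd (ax g h + 2) h) (ax g h + 2) * ζ j f (sd (ax g h + 1) h) (ax g h + 1)) := by
    intro g h ne e f j
    rw [← conf_cross (ζ j e) (ζ j f) ne]
    refine sum_congr rfl fun d _ => ?_
    simp only [V, ζ, map_mul, map_intCast, zt_conj]
    ring
  have sq : ∀ g h, g ≠ h → ∀ e f, ∑ s, sq2 v g h 0 s e f =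
      if e = f then (∑ j, dd (N j) (ax g h) e) / k else 0 := by
    intro g h ne e f
    simp only [sq2, gram, sub_zero]
    rw [sum_comm]
    have sy : ∀ d, Sym fun j => ∑ d', conj (V g e j d') * V h d j d' := fun d j => by
      simp only [map_sum, map_mul, Vn]
    simp only [fun d => pars (ψ := fun j => ∑ d', conj (V g f j d') * V h d j d') (sy d),
      ← sum_div, ← re_sum]
    rw [sum_comm, re_sum]
    have tt : (tau g h : ℂ) * tau g h = 1 := by exact_mod_cast tau_sq g h ne
    have e1 : ∀ j, (∑ d, conj (∑ d', conj (V g e j d') * V h d j d') *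
        ∑ d', conj (V g f j d') * V h d j d').re = (if e = f then dd (N j) (ax g h) e else 0) +
        sd (ax g h + 1) h * kp y c β j (ax g h + 1) * (sd (ax g h + 2) h * kp y c β j (ax g h + 2)) *
          Sm (ax g h) e f := fun j => by
      rw [← cross_re (ax g h) e f (fun e => ζ j e (sd (ax g h + 1) h) (ax g h + 1))
        (fun e => ζ j e (sd (ax g h + 2) h) (ax g h + 2)) (N j) _ _
        (ζg j _ _ (sd_sign _ _)) (ζg j _ _ (sd_sign _ _))]
      congr 1
      refine sum_congr rfl fun d _ => ?_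
      rw [cross g h ne, cross g h ne, map_mul, map_intCast, mul_mul_mul_comm, tt, one_mul]
    have e2 := F.kp_orth (show ax g h + 1 ≠ ax g h + 2 by generalize ax g h = r; revert r; decide)
    have e3 : ∑ i, sd (ax g h + 1) h * kp y c β i (ax g h + 1) *
        (sd (ax g h + 2) h * kp y c β i (ax g h + 2)) = 0 := by
      rw [sum_congr rfl fun i _ => mul_mul_mul_comm _ _ _ _, ← mul_sum, e2, mul_zero]
    simp only [e1, sum_add_distrib, ← sum_mul, e3, zero_mul, add_zero]
    by_cases ef : e = f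
    · simp only [if_pos ef]
    · simp [if_neg ef]
  obtain ⟨L, hL⟩ := marg_alg (fun r e => (∑ j, dd (N j) r e) / k) (μ := μ / k) fun s e => by
    rw [← add_div, ← sub_div, ← sum_add_distrib, ← sum_sub_distrib]
    exact div_le_div_of_nonneg_right (g4 s e) k0.le
  refine ⟨v, L, fun g h s s' γ e f => ?_, fun g s e f => ?_, fun g s s' ne e f => ?_,
    fun g f => ?_, fun g h ne s s' e f => ?_, fun G => (hL G).trans_eq ?_⟩
  · rw [gram, gram, add_sub_add_right_eq_sub]
  · simp only [same, sub_self, if_true, zero_add, if_neg (F.ne _), sum_const_zero]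
    split_ifs <;> ring
  · simp only [same, if_neg (sub_ne_zero.2 ne.symm), zero_add]
    by_cases h : ∃ z, s' - s + y z = 0
    · obtain ⟨z, hz⟩ := h
      have : ∀ e f, (∑ z', if s' - s + y z' = 0 then Pm (c z') (sd (c z') g) (t z') (β z') e f
          else 0) = Pm (c z) (sd (c z) g) (t z) (β z) e f := fun e f => by
        rw [sum_eq_single z (fun z' _ h => if_neg fun h' =>
          h (F.inj (add_left_cancel (h'.trans hz.symm)))) (by simp), if_pos hz]
      simp only [this]
      exact Pm_orth _ (by exact_mod_cast sd_sign (c z) g) (F.bt z) e f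
    · simp only [if_neg fun hz => h ⟨_, hz⟩, sum_const_zero]
      fin_cases e <;> fin_cases f <;> simp [Fin.sum_univ_three] <;> norm_num
  · let f' : Fin 3 → ZMod k → ℝ := fun e s => f e s - (∑ s, f e s) / k
    have z1 : ∀ e, ∑ s, f' e s = 0 := fun e => by
      simp only [f', sum_sub_distrib, sum_const, card_univ, ZMod.card, nsmul_eq_mul]
      field_simp
      ring
    have z2 : ∀ e, ∑ s, f e s * f e s - (∑ s, f e s) * (∑ s, f e s) / k = ∑ s, f' e s * f' e s :=
      fun e => by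
        simp only [f', mul_sub, sub_mul, sum_sub_distrib, ← sum_mul, ← mul_sum, sum_const,
          card_univ, ZMod.card, nsmul_eq_mul]
        field_simp
        ring
    have z3 : ∀ f : Fin 3 → ZMod k → ℝ, ∑ e, ∑ e', ∑ s, ∑ s', f e s * f e' s' *
        (v g s e ⬝ᵥ v g s' e') = (∑ e, ∑ s, f e s • v g s e) ⬝ᵥ ∑ e, ∑ s, f e s • v g s e :=
      fun f => by
        have := gram_sum (fun x : Fin 3 × ZMod k => f x.1 x.2) fun x => v g x.2 x.1
        simp only [Fintype.sum_prod_type] at this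
        rw [← this]
        exact sum_congr rfl fun e _ => sum_comm
    have z4 : ∑ e, ∑ s, f e s • v g s e = ∑ e, ∑ s, f' e s • v g s e :=
      sum_congr rfl fun e _ => by
        simp only [f', sub_smul, sum_sub_distrib, ← smul_sum, v, hv_sum, smul_zero, sub_zero]
    rw [z3, z4, ← z3]
    simp only [z2, same, mul_add, sum_add_distrib]
    have w1 : (∑ e, ∑ e', ∑ s, ∑ s', f' e s * f' e' s' *
        if s' - s = 0 then (if e = e' then 2 * k - 4 * a else 0) else 0) =
        (2 * k - 4 * a) * ∑ e, ∑ s, f' e s * f' e s := by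
      simp only [sub_eq_zero, mul_ite, mul_zero, sum_ite_eq', mem_univ, if_true, sum_ite_irrel,
        sum_const_zero, sum_ite_eq, mul_sum]
      exact sum_congr rfl fun _ _ => sum_congr rfl fun _ _ => by ring
    have w2 : (∑ e, ∑ e', ∑ s, ∑ s', f' e s * f' e' s' * if e = e' then -2 else 0) = 0 := by
      simp only [← sum_mul, ← mul_sum, z1, zero_mul, sum_const_zero]
    have w3 : -((∑ z, (t z + |β z|)) * ∑ e, ∑ s, f' e s * f' e s) ≤
        ∑ e, ∑ e', ∑ s, ∑ s', f' e s * f' e' s' * ∑ z,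
          if s' - s + y z = 0 then Pm (c z) (sd (c z) g) (t z) (β z) e e' else 0 := by
      have e1 : ∀ e e' s, (∑ s', f' e s * f' e' s' * ∑ z,
          if s' - s + y z = 0 then Pm (c z) (sd (c z) g) (t z) (β z) e e' else 0) =
          ∑ z, f' e s * f' e' (s - y z) * Pm (c z) (sd (c z) g) (t z) (β z) e e' := fun e e' s => by
        simp only [mul_sum]
        rw [sum_comm]
        refine sum_congr rfl fun z _ => ?_
        rw [sum_eq_single (s - y z) (fun s' _ h => by
          rw [if_neg fun h' => h (by linear_combination h'), mul_zero]) (by simp),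
          if_pos (by ring)]
      simp only [e1]
      rw [sum4, sum_mul, ← sum_neg_distrib]
      refine sum_le_sum fun z _ => le_trans (le_of_eq ?_) (sum_le_sum fun s _ =>
        Pm_ge (c z) (e := sd (c z) g) (β := β z) (by exact_mod_cast sd_sign (c z) g) (F.t0 z)
          (fun e => f' e s) fun e => f' e (s - y z))
      have e3 : ∑ s, ∑ e, f' e (s - y z) * f' e (s - y z) = _ :=
        Equiv.sum_comp (Equiv.subRight (y z)) fun s => ∑ e, f' e s * f' e s
      rw [sum_neg_distrib, ← mul_sum, sum_add_distrib, e3, sum_comm]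
      ring
    rw [w1, w2]
    simp only [sum_add_distrib] at w3
    linarith
  · rw [gram, gram, ← fo_neg]
    congr 1
    funext j
    rw [cross g h ne, cross g h ne]
    ring
  · congr 1
    refine sum_congr rfl fun g _ => sum_congr rfl fun e _ => sum_congr rfl fun h _ =>
      sum_congr rfl fun f _ => ?_
    by_cases ne : g = h
    · simp only [if_pos ne]
    · simp only [if_neg ne, sq g h ne]

end Pool.Agent.P.MP_c2263a_gt.All
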