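import Pool.Agent.P.MP_c2263a_gt.All.Exist
import Pool.Agent.P.MP_c2263a_gt.All.Build

/-! The lower bound for all angles in a window. -/

set_option autoImplicit false

namespace Pool.Agent.P.MP_c2263a_gt.All

open Finset Pool.Agent.P.MP_c2263a_gt.Fix

theorem pairFam {k : ℕ} [NeZero k] {I : Type} [Fintype I] (n : I → ℕ) (c : I → Fin 3)
    (t β : I → ℝ) {a κ0 : ℝ} {j0 : ZMod k} (n1 : Function.Injective n) (n0 : ∀ i, 0 < n i)
    (n2 : ∀ i, 2 * n i < k) (t0 : ∀ i, 0 ≤ t i) (bt : ∀ i, β i ^ 2 = t i * (2 - t i))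
    (ts : ∀ p, ∑ i, cut c t p i = a) (bs : ∀ p, (2 * ∑ i, |cut c β p i|) ^ 2 ≤ κ0)
    (zero : ∀ p, ∑ i, cut c β p i * (ch (j0 * (n i : ZMod k))).im = 0)
    (gap : 2 * ∑ i, (t i + |β i|) < 2 * k - 4 * a) :
    Fam (fun z : I × Bool => if z.2 then (n z.1 : ZMod k) else -(n z.1 : ZMod k)) (fun z => c z.1)
      (fun z => t z.1) (fun z => if z.2 then β z.1 else -β z.1)
      ((Equiv.refl I).prodCongr ⟨not, not, Bool.not_not, Bool.not_not⟩) a κ0 j0 := by
  have h1 : ∀ i i', (n i : ZMod k) = n i' → i = i' := fun i i' h => by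
    have := n2 i
    have := n2 i'
    rw [ZMod.natCast_eq_natCast_iff', Nat.mod_eq_of_lt (by omega), Nat.mod_eq_of_lt (by omega)] at h
    exact n1 h
  have h2 : ∀ i i', (n i : ZMod k) ≠ -(n i' : ZMod k) := fun i i' h => by
    have := n2 i
    have := n2 i'
    have := n0 i
    rw [eq_neg_iff_add_eq_zero, ← Nat.cast_add, ZMod.natCast_eq_zero_iff] at h
    have := Nat.le_of_dvd (by omega) h
    omega
  have h3 : ∀ i, (n i : ZMod k) ≠ 0 := fun i h => h2 i i (by rw [h, neg_zero])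
  refine ⟨?_, ?_, ?_, fun _ => rfl, fun _ => rfl, ?_, fun z => t0 z.1, ?_, fun p => ?_, fun p => ?_,
    fun p => ?_, ?_⟩
  · rintro ⟨i, _ | _⟩ ⟨i', _ | _⟩ h
    · rw [h1 i i' (by simpa using h)]
    · exact absurd (by simpa using h.symm) (h2 i' i)
    · exact absurd (by simpa using h) (h2 i i')
    · rw [h1 i i' (by simpa using h)]
  · rintro ⟨i, _ | _⟩ <;> simp [h3]
  · rintro ⟨i, _ | _⟩ <;> simp
  · rintro ⟨i, _ | _⟩ <;> simp
  · rintro ⟨i, _ | _⟩ <;> simp [bt]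
  · rw [← ts p, mul_sum, Fintype.sum_prod_type]
    exact sum_congr rfl fun i _ => by simp [cut, two_mul]
  · refine le_trans (le_of_eq ?_) (bs p)
    rw [mul_sum, Fintype.sum_prod_type]
    congr 1
    refine sum_congr rfl fun i _ => ?_
    simp only [cut, Fintype.sum_bool, if_true, Bool.false_eq_true, if_false]
    split_ifs <;> simp [two_mul]
  · have : ft (fun z : I × Bool => if z.2 then (n z.1 : ZMod k) else -(n z.1 : ZMod k))
        (cut (fun z => c z.1) (fun z => if z.2 then β z.1 else -β z.1) p) j0 =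
        2 * Complex.I * (∑ i, cut c β p i * (ch (j0 * (n i : ZMod k))).im : ℝ) := by
      rw [ft, Fintype.sum_prod_type, Complex.ofReal_sum, mul_sum]
      refine sum_congr rfl fun i _ => ?_
      simp only [cut, Fintype.sum_bool, if_true, Bool.false_eq_true, if_false, mul_neg, ch_neg]
      split_ifs
      · apply Complex.ext <;> simp
        ring
      · simp
    rw [this, zero]
    simp
  · refine lt_of_eq_of_lt ?_ gap
    rw [mul_sum, Fintype.sum_prod_type]
    exact sum_congr rfl fun i _ => by simp [two_mul]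

theorem split_angle (S S' : ℝ) {a : ℝ} (a0 : 0 ≤ a) (a1 : a ≤ 1 / 2) : ∃ t b b' : ℝ, 0 ≤ t ∧ t ≤ a ∧
    b ^ 2 = t * (2 - t) ∧ b' ^ 2 = (a - t) * (2 - (a - t)) ∧ b * S + b' * S' = 0 := by
  obtain ⟨t, ⟨t0, t1⟩, ht⟩ := intermediate_value_Icc a0 (f := fun t =>
    t * (2 - t) * S ^ 2 - (a - t) * (2 - (a - t)) * S' ^ 2) (by fun_prop) (show (0 : ℝ) ∈ _ from
      ⟨by nlinarith [mul_nonneg (mul_nonneg a0 (show 0 ≤ 2 - a by linarith)) (sq_nonneg S')],
        by nlinarith [mul_nonneg (mul_nonneg a0 (show 0 ≤ 2 - a by linarith)) (sq_nonneg S)]⟩)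
  have e1 := Real.sq_sqrt (show 0 ≤ t * (2 - t) by nlinarith)
  have e2 := Real.sq_sqrt (show 0 ≤ (a - t) * (2 - (a - t)) by nlinarith)
  have e3 : (√(t * (2 - t)) * S) ^ 2 = (√((a - t) * (2 - (a - t))) * S') ^ 2 := by
    rw [mul_pow, mul_pow, e1, e2]
    linarith
  rcases sq_eq_sq_iff_eq_or_eq_neg.1 e3 with h | h
  · exact ⟨t, _, -√((a - t) * (2 - (a - t))), t0, t1, e1, by rw [neg_sq, e2], by linarith⟩
  · exact ⟨t, _, _, t0, t1, e1, e2, by linarith⟩

theorem abs_le_one_of {b t : ℝ} (h : b ^ 2 = t * (2 - t)) : |b| ≤ 1 :=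
  abs_le_one_iff_mul_self_le_one.2 (by nlinarith [sq_nonneg (t - 1)])

theorem core_of {d : ℕ} (hd : 7 ≤ d ∧ Odd d ∨ 12 ≤ d) {a : ℝ} (a0 : 0 ≤ a) (a1 : a ≤ 1 / 2) :
    ∃ (v : Fin 4 → ZMod (d + 1) → Fin 3 → {j : ZMod (d + 1) // j ≠ 0} × Fin 4 → ℝ) (η μ L : ℝ),
      0 < η ∧ 0 < μ ∧ Core v (2 * (d + 1 : ℕ) - 2 - 4 * a) η μ L := by
  rcases hd with ⟨h7, m, hm⟩ | h12
  · have k8 : (8 : ℝ) ≤ (d + 1 : ℕ) := by exact_mod_cast Nat.succ_le_succ h7
    have e1 := Real.sq_sqrt (show 0 ≤ a * (2 - a) by nlinarith)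
    have j1 : ((m + 1 : ℕ) : ZMod (d + 1)) ≠ 0 := fun h => by
      rw [ZMod.natCast_eq_zero_iff] at h
      have := Nat.le_of_dvd (by omega) h
      omega
    have j2 : -((m + 1 : ℕ) : ZMod (d + 1)) = (m + 1 : ℕ) := by
      rw [neg_eq_iff_add_eq_zero, ← Nat.cast_add, ZMod.natCast_eq_zero_iff]
      exact ⟨1, by omega⟩
    have F := pairFam (k := d + 1) (fun i : Fin 3 => i + 1) id (fun _ => a) (fun _ => √(a * (2 - a)))
      (a := a) (κ0 := 3) (j0 := (m + 1 : ℕ)) (fun i j h => Fin.ext (by simpa using h))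
      (fun i => Nat.succ_pos _) (fun i => by have := i.2; omega) (fun _ => a0) (fun _ => e1)
      (fun p => by simp [cut]) (fun p => by
        have : ∑ i, |cut id (fun _ => √(a * (2 - a))) p i| = √(a * (2 - a)) := by
          rw [sum_eq_single p (fun i _ h => by simp [cut, h]) (by simp)]
          simp [cut]
        rw [this, mul_pow, e1]
        nlinarith) (fun p => sum_eq_zero fun i _ => by
        rw [Complex.conj_eq_iff_im.1 (by rw [← ch_neg, ← neg_mul, j2]), mul_zero]) (by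
        have := abs_le_one_of e1
        simp only [sum_const, card_univ, Fintype.card_fin, nsmul_eq_mul]
        push_cast at k8 ⊢
        linarith)
    obtain ⟨U, W, N, b1, b2, b3, b4, b5, b6, b7, b8⟩ := F.data j1 (by omega) a1 (ε := 28 / 100)
      (by norm_num) (by norm_num) (by linarith) rfl
    obtain ⟨v, L, C⟩ := F.core b1 b2 b3 b4 b5 b6 b7 b8
    exact ⟨v, _, _, L, sub_pos.2 F.gap, div_pos (by nlinarith) (by linarith), C⟩
  · have k8 : (13 : ℝ) ≤ (d + 1 : ℕ) := by exact_mod_cast Nat.succ_le_succ h12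
    have j1 : ((1 : ℕ) : ZMod (d + 1)) ≠ 0 := fun h => by
      rw [ZMod.natCast_eq_zero_iff] at h
      have := Nat.le_of_dvd (by omega) h
      omega
    choose t b b' t0 t1 e1 e2 e3 using fun p : Fin 3 => split_angle
      (ch (((1 : ℕ) : ZMod (d + 1)) * ((2 * p + 1 : ℕ) : ZMod (d + 1)))).im
      (ch (((1 : ℕ) : ZMod (d + 1)) * ((2 * p + 2 : ℕ) : ZMod (d + 1)))).im a0 a1
    have cs : ∀ (f : Fin 3 × Bool → ℝ) (G : ℝ → Fin 3 × Bool → ℝ), (∀ i, G 0 i = 0) → ∀ p,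
        ∑ i, G (cut Prod.fst f p i) i = G (f (p, true)) (p, true) + G (f (p, false)) (p, false) :=
      fun f G hG p => by
        rw [Fintype.sum_prod_type, sum_eq_single p (fun i _ h => by simp [cut, h, hG]) (by simp)]
        simp [cut]
    have F := pairFam (k := d + 1) (fun i : Fin 3 × Bool => if i.2 then 2 * i.1 + 1 else 2 * i.1 + 2)
      Prod.fst (fun i => if i.2 then t i.1 else a - t i.1) (fun i => if i.2 then b i.1 else b' i.1)
      (a := a) (κ0 := 8) (j0 := (1 : ℕ)) (by decide) (by decide)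
      (fun i => by have := i.1.2; split_ifs <;> omega)
      (fun i => by split_ifs <;> linarith [t0 i.1, t1 i.1])
      (fun i => by split_ifs <;> simp only [e1, e2])
      (fun p => by rw [cs _ (fun x _ => x) fun _ => rfl]; simp)
      (fun p => by
        rw [cs _ (fun x _ => |x|) fun _ => abs_zero]
        simp only [if_true, Bool.false_eq_true, if_false]
        nlinarith [sq_abs (b p), sq_abs (b' p), e1 p, e2 p, sq_nonneg (|b p| - |b' p|),
          sq_nonneg (t p), sq_nonneg (a - t p)])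
      (fun p => by
        rw [cs _ (fun x i => x * (ch (((1 : ℕ) : ZMod (d + 1)) *
          ((if i.2 then 2 * i.1 + 1 else 2 * i.1 + 2 : ℕ) : ZMod (d + 1)))).im) fun _ => zero_mul _]
        exact e3 p) (by
        have q1 := fun p => abs_le_one_of (e1 p)
        have q2 := fun p => abs_le_one_of (e2 p)
        simp only [Fintype.sum_prod_type, Fintype.sum_bool, if_true, Bool.false_eq_true, if_false,
          Fin.sum_univ_three]
        linarith [q1 0, q1 1, q1 2, q2 0, q2 1, q2 2])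
    obtain ⟨U, W, N, b1, b2, b3, b4, b5, b6, b7, b8⟩ := F.data j1 (by omega) a1 (ε := 39 / 100)
      (by norm_num) (by norm_num) (by linarith) rfl
    obtain ⟨v, L, C⟩ := F.core b1 b2 b3 b4 b5 b6 b7 b8
    exact ⟨v, _, _, L, sub_pos.2 F.gap, div_pos (by nlinarith) (by linarith), C⟩

theorem lowAll {d : ℕ} (hd : 7 ≤ d ∧ Odd d ∨ 12 ≤ d) {α : ℝ} (h0 : 0 < α)
    (h1 : (1 - α) / (2 * α) ≤ d) (h2 : d ≤ (1 - α) / (2 * α) + 1) {η : ℝ} (hη : 0 < η) :
    ∃ m0 : ℕ, ∀ m, m0 ≤ m → ∃ (v : ℕ) (U : Fin v → Submodule ℝ (EuclideanSpace ℝ (Fin m))),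
      ((∀ i, Module.finrank ℝ (U i) = 3) ∧ ∀ i j, i ≠ j → ∀ u ∈ U i,
        ‖(U j).starProjection u‖ ^ 2 = α ^ 2 * ‖u‖ ^ 2) ∧
      (d + 1) / d * (m : ℝ) ≤ (1 + η) ^ 4 * v := by
  have d7 : 7 ≤ d := by omega
  have d8 : (7 : ℝ) ≤ d := by exact_mod_cast d7
  obtain ⟨v, η', μ, L, η0, μ0, C⟩ := core_of hd (a := (d - (1 - α) / (2 * α)) / 2) (by linarith)
    (by linarith)
  have := low1 (by omega) C (by simp [Fintype.card_subtype_compl, mul_comm])
    (by push_cast; linarith) η0 μ0 hη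
  rwa [show 1 / (1 + (2 * ((d + 1 : ℕ) : ℝ) - 2 - 4 * ((d - (1 - α) / (2 * α)) / 2))) = α by
    push_cast
    rw [div_eq_iff (by linarith)]
    field_simp
    ring] at this

end Pool.Agent.P.MP_c2263a_gt.All
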