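import Pool.Agent.P.MP_c2263a_gt.Fix.Cons

/-! Fourier analysis on a cyclic group with real vectors. -/

set_option autoImplicit false

namespace Pool.Agent.P.MP_c2263a_gt.All

open Finset Matrix ComplexConjugate Pool.Agent.P.MP_c2263a_gt.Fix

variable {k : ℕ} [NeZero k]

/-- the standard character -/
noncomputable def ch (x : ZMod k) : ℂ := ZMod.stdAddChar x

theorem ch_add (x y : ZMod k) : ch (x + y) = ch x * ch y := AddChar.map_add_eq_mul _ _ _

theorem ch_neg (x : ZMod k) : ch (-x) = conj (ch x) := AddChar.map_neg_eq_conj _ _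

theorem ch_zero : ch (0 : ZMod k) = 1 := AddChar.map_zero_eq_one _

theorem ch_norm (x : ZMod k) : ‖ch x‖ = 1 := AddChar.norm_apply _ _

theorem ch_sum (x : ZMod k) : ∑ j, ch (j * x) = if x = 0 then (k : ℂ) else 0 := by
  have := AddChar.sum_mulShift x (ZMod.isPrimitive_stdAddChar k)
  rw [ZMod.card] at this
  simpa [ch] using this

/-- conjugate symmetric functions -/
def Sym (φ : ZMod k → ℂ) : Prop := ∀ j, φ (-j) = conj (φ j)

theorem Sym.sum_im {φ : ZMod k → ℂ} (h : Sym φ) : (∑ j, φ j).im = 0 := by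
  rw [← Complex.conj_eq_iff_im, map_sum, ← Equiv.sum_comp (Equiv.neg (ZMod k)) φ]
  exact sum_congr rfl fun j _ => (h j).symm

omit [NeZero k] in
theorem Sym.mul {φ ψ : ZMod k → ℂ} (h : Sym φ) (h' : Sym ψ) : Sym fun j => φ j * ψ j :=
  fun j => by simp only [h j, h' j, map_mul]

theorem sym_ch (x : ZMod k) : Sym fun j => ch (j * x) := fun j => by
  simp only [neg_mul, ch_neg]

/-- inverse Fourier transform -/
noncomputable def fo (φ : ZMod k → ℂ) (σ : ZMod k) : ℝ := (∑ j, ch (j * σ) * φ j).re / k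

theorem pars {φ ψ : ZMod k → ℂ} (h : Sym φ) :
    ∑ σ, fo φ σ * fo ψ σ = (∑ j, conj (φ j) * ψ j).re / k := by
  have k0 : (k : ℝ) ≠ 0 := by exact_mod_cast NeZero.ne k
  have e1 : ∀ σ, fo φ σ * fo ψ σ =
      (conj (∑ j, ch (j * σ) * φ j) * ∑ j, ch (j * σ) * ψ j).re / (k * k) := fun σ => by
    rw [Complex.mul_re, Complex.conj_im, ((sym_ch σ).mul h).sum_im, Complex.conj_re, fo, fo]
    field_simp
    ring
  have e2 : ∑ σ, conj (∑ j, ch (j * σ) * φ j) * ∑ j, ch (j * σ) * ψ j =
      (k : ℝ) * ∑ j, conj (φ j) * ψ j := by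
    simp only [map_sum, sum_mul_sum]
    rw [sum_comm, mul_sum]
    refine sum_congr rfl fun j _ => ?_
    rw [sum_comm]
    have : ∀ j', ∑ σ, conj (ch (j * σ) * φ j) * (ch (j' * σ) * ψ j') =
        conj (φ j) * ψ j' * if j' - j = 0 then (k : ℂ) else 0 := fun j' => by
      rw [← ch_sum, mul_sum]
      refine sum_congr rfl fun σ _ => ?_
      rw [map_mul, ← ch_neg, show σ * (j' - j) = -(j * σ) + j' * σ by ring, ch_add]
      ring
    simp only [this, sub_eq_zero, mul_ite, mul_zero, sum_ite_eq', mem_univ, if_true]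
    push_cast
    ring
  simp only [e1, ← sum_div]
  rw [← Complex.re_sum, e2, Complex.re_ofReal_mul]
  field_simp

/-- real vectors attached to a conjugate symmetric family -/
noncomputable def hv (V : ZMod k → Fin 4 → ℂ) (s : ZMod k) (x : {j : ZMod k // j ≠ 0} × Fin 4) : ℝ :=
  ((ch (x.1.1 * s) * V x.1.1 x.2).re + (ch (x.1.1 * s) * V x.1.1 x.2).im) / √k

theorem hv_sum (V : ZMod k → Fin 4 → ℂ) : ∑ s, hv V s = 0 := by
  funext x
  simp only [Finset.sum_apply, hv, ← sum_div, sum_add_distrib, ← Complex.re_sum, ← Complex.im_sum,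
    ← sum_mul, mul_comm x.1.1, ch_sum, if_neg x.1.2]
  simp

theorem hv_dot {V V' : ZMod k → Fin 4 → ℂ} (h : ∀ c, Sym fun j => V j c)
    (h' : ∀ c, Sym fun j => V' j c) (h0 : V 0 = 0) (s t : ZMod k) :
    hv V s ⬝ᵥ hv V' t = fo (fun j => ∑ c, conj (V j c) * V' j c) (t - s) := by
  have k0 : (0 : ℝ) ≤ k := Nat.cast_nonneg k
  have e1 : ∀ (j : ZMod k) c, ((ch (j * s) * V j c).re + (ch (j * s) * V j c).im) / √k *
      (((ch (j * t) * V' j c).re + (ch (j * t) * V' j c).im) / √k) =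
      ((ch (j * (t - s)) * (conj (V j c) * V' j c)).re +
        (ch (j * s) * V j c * (ch (j * t) * V' j c)).im) / k := fun j c => by
    have : ch (j * (t - s)) * (conj (V j c) * V' j c) =
        conj (ch (j * s) * V j c) * (ch (j * t) * V' j c) := by
      rw [map_mul, ← ch_neg, show j * (t - s) = -(j * s) + j * t by ring, ch_add]
      ring
    rw [this, div_mul_div_comm, Real.mul_self_sqrt k0]
    generalize ch (j * s) * V j c = x
    generalize ch (j * t) * V' j c = y
    simp only [Complex.mul_re, Complex.mul_im, Complex.conj_re, Complex.conj_im]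
    ring
  simp only [dotProduct, hv, Fintype.sum_prod_type, e1]
  rw [sum_ne (0 : ZMod k) fun j => ∑ c, ((ch (j * (t - s)) * (conj (V j c) * V' j c)).re +
        (ch (j * s) * V j c * (ch (j * t) * V' j c)).im) / k]
  simp only [h0, Pi.zero_apply, map_zero, zero_mul, mul_zero, Complex.zero_re, Complex.zero_im,
    add_zero, zero_div, sum_const_zero, sub_zero, ← sum_div, sum_add_distrib, fo]
  rw [sum_comm (f := fun j c => (ch (j * s) * V j c * (ch (j * t) * V' j c)).im)]
  simp only [← Complex.im_sum, ← Complex.re_sum, ← mul_sum,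
    fun c => (((sym_ch s).mul (h c)).mul ((sym_ch t).mul (h' c))).sum_im]
  simp

section fam

variable {Z : Type} [Fintype Z]

/-- Fourier transform of a function supported on a family of points -/
noncomputable def ft (y : Z → ZMod k) (f : Z → ℝ) (j : ZMod k) : ℂ := ∑ z, f z * ch (j * y z)

theorem ft_sym (y : Z → ZMod k) (f : Z → ℝ) : Sym (ft y f) := fun j => by
  simp only [ft, map_sum, map_mul, Complex.conj_ofReal, neg_mul, ch_neg]

theorem ft_neg {y : Z → ZMod k} {ν : Z ≃ Z} (h : ∀ z, y (ν z) = -y z) (f : Z → ℝ) (j : ZMod k) :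
    conj (ft y f j) = ft y (fun z => f (ν z)) j := by
  rw [← ft_sym, ft, ← Equiv.sum_comp ν]
  simp only [h, neg_mul_neg, ft]

theorem ft_norm (y : Z → ZMod k) (f : Z → ℝ) (j : ZMod k) : ‖ft y f j‖ ≤ ∑ z, |f z| :=
  (norm_sum_le _ _).trans_eq (sum_congr rfl fun z _ => by
    rw [norm_mul, ch_norm, mul_one, Complex.norm_real, Real.norm_eq_abs])

theorem fo_ft (y : Z → ZMod k) (f : Z → ℝ) (σ : ZMod k) :
    fo (ft y f) σ = ∑ z, if σ + y z = 0 then f z else 0 := by
  have k0 : (k : ℝ) ≠ 0 := by exact_mod_cast NeZero.ne k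
  have : ∑ j, ch (j * σ) * ft y f j = ∑ z, (f z : ℂ) * if σ + y z = 0 then (k : ℂ) else 0 := by
    simp only [ft, mul_sum]
    rw [sum_comm]
    refine sum_congr rfl fun z _ => ?_
    rw [← ch_sum, mul_sum]
    exact sum_congr rfl fun j _ => by rw [mul_add, ch_add]; ring
  rw [fo, this, Complex.re_sum, sum_div]
  refine sum_congr rfl fun z _ => ?_
  split_ifs
  · simp [k0]
  · simp

theorem ft_orth {y : Z → ZMod k} (hy : Function.Injective y) (f g : Z → ℝ)
    (h : ∀ z, f z * g z = 0) : ∑ j, conj (ft y f j) * ft y g j = 0 := by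
  simp only [ft, map_sum, sum_mul_sum]
  rw [sum_comm]
  refine sum_eq_zero fun z _ => ?_
  rw [sum_comm]
  refine sum_eq_zero fun z' _ => ?_
  have : ∑ j, conj (f z * ch (j * y z)) * (g z' * ch (j * y z')) =
      ((f z * g z' : ℝ) : ℂ) * if y z' - y z = 0 then (k : ℂ) else 0 := by
    rw [← ch_sum, mul_sum]
    refine sum_congr rfl fun j _ => ?_
    rw [map_mul, ← ch_neg, show j * (y z' - y z) = -(j * y z) + j * y z' by ring, ch_add,
      Complex.conj_ofReal]
    push_cast
    ring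
  rw [this]
  split_ifs with e
  · rw [hy (sub_eq_zero.1 e), h]
    simp
  · simp

end fam

theorem fo_add (φ ψ : ZMod k → ℂ) (σ : ZMod k) : fo (fun j => φ j + ψ j) σ = fo φ σ + fo ψ σ := by
  simp only [fo, mul_add, sum_add_distrib, Complex.add_re, add_div]

theorem fo_neg (φ : ZMod k → ℂ) (σ : ZMod k) : fo (fun j => -φ j) σ = -fo φ σ := by
  simp only [fo, mul_neg, sum_neg_distrib, Complex.neg_re, neg_div]

theorem fo_const (r : ℝ) (σ : ZMod k) : fo (fun _ => (r : ℂ)) σ = if σ = 0 then r else 0 := by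
  have k0 : (k : ℝ) ≠ 0 := by exact_mod_cast NeZero.ne k
  rw [fo, ← sum_mul, ch_sum]
  split_ifs
  · simp [k0]
  · simp

theorem fo_delta (r : ℝ) (σ : ZMod k) :
    fo (fun j => if j = 0 then ((k * r : ℝ) : ℂ) else 0) σ = r := by
  have k0 : (k : ℝ) ≠ 0 := by exact_mod_cast NeZero.ne k
  simp [fo, ch_zero, k0]

/-- a skew conference matrix -/
def conf : Fin 4 → Fin 4 → ℤ := ![![0, 1, 1, 1], ![-1, 0, 1, -1], ![-1, -1, 0, 1], ![-1, 1, -1, 0]]

/-- signs of the cross blocks -/
def tau : Fin 4 → Fin 4 → ℤ := ![![0, 1, 1, 1], ![-1, 0, 1, -1], ![-1, -1, 0, 1], ![-1, 1, -1, 0]]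

theorem tau_sq : ∀ g h, g ≠ h → tau g h * tau g h = 1 := by decide

theorem sd_sign : ∀ p g, sd p g = 1 ∨ sd p g = -1 := by decide

theorem conf_same (F : Fin 3 → ℂ) (g : Fin 4) :
    ∑ c, (conf g c : ℂ) * conf g c * F (ax g c) = ∑ p, F p := by
  fin_cases g <;> simp [Fin.sum_univ_four, Fin.sum_univ_three, conf, ax] <;> ring

theorem conf_cross (ζ ζ' : ℤ → Fin 3 → ℂ) {g h : Fin 4} (e : g ≠ h) :
    ∑ c, (conf g c : ℂ) * conf h c *
      (ζ (-sd (ax g c) g) (ax g c) * ζ' (sd (ax h c) h) (ax h c)) =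
      tau g h * (ζ (sd (ax g h + 1) h) (ax g h + 1) * ζ' (sd (ax g h + 2) h) (ax g h + 2) -
        ζ (sd (ax g h + 2) h) (ax g h + 2) * ζ' (sd (ax g h + 1) h) (ax g h + 1)) := by
  fin_cases g <;> fin_cases h <;> first
    | exact absurd rfl e
    | (simp [Fin.sum_univ_four, conf, ax, sd, tau]; try ring)

end Pool.Agent.P.MP_c2263a_gt.All
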