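import Pool.Agent.P.MP_c2263a_gt.All.Final

/-! Core systems on nine and eleven points. -/

set_option autoImplicit false

namespace Pool.Agent.P.MP_c2263a_gt.All

open Finset ComplexConjugate Complex Pool.Agent.P.MP_c2263a_gt.Fix

variable {k : ℕ} [NeZero k]

section fam

variable {Z : Type} [Fintype Z] {y : Z → ZMod k} {c : Z → Fin 3} {t β : Z → ℝ} {ν : Z ≃ Z}
  {a κ0 : ℝ} {j0 : ZMod k}

theorem ft_par (hy : Function.Injective y) (f : Z → ℝ) :
    ∑ j, conj (ft y f j) * ft y f j = ((k * ∑ z, f z * f z : ℝ) : ℂ) := by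
  classical
  simp only [ft, map_sum, sum_mul_sum]
  rw [sum_comm, mul_sum, ofReal_sum]
  refine sum_congr rfl fun z _ => ?_
  rw [sum_comm]
  have : ∀ z', ∑ j, conj (f z * ch (j * y z)) * (f z' * ch (j * y z')) =
      if z' = z then ((k * (f z * f z') : ℝ) : ℂ) else 0 := fun z' => by
    have e : ∑ j, conj (f z * ch (j * y z)) * (f z' * ch (j * y z')) =
        ((f z * f z' : ℝ) : ℂ) * if y z' - y z = 0 then (k : ℂ) else 0 := by
      rw [← ch_sum, mul_sum]
      refine sum_congr rfl fun j _ => ?_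
      rw [map_mul, ← ch_neg, show j * (y z' - y z) = -(j * y z) + j * y z' by ring, ch_add,
        conj_ofReal]
      push_cast
      ring
    rw [e]
    simp only [sub_eq_zero, hy.eq_iff]
    split_ifs
    · push_cast
      ring
    · simp
  simp only [this, sum_ite_eq', mem_univ, if_true]

theorem Fam.kp_sum (F : Fam y c t β ν a κ0 j0) (a1 : a ≤ 1 / 2) (p : Fin 3) :
    k * (2 * a) ≤ ∑ j, kp y c β j p ^ 2 ∧ ∑ j, kp y c β j p ^ 2 ≤ k * (4 * a) := by
  have h := congrArg re (ft_par F.inj (cut c β p))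
  simp only [← F.kp_eq, re_sum, ofReal_re] at h
  have h2 : ∑ j, kp y c β j p ^ 2 = k * ∑ z, cut c β p z * cut c β p z := by
    rw [← h]
    exact sum_congr rfl fun j _ => by simp [sq]
  have t0 : ∀ z, 0 ≤ cut c t p z := fun z => by
    unfold cut
    split_ifs
    exacts [F.t0 z, le_rfl]
  have t1 : ∀ z, cut c t p z ≤ 1 := fun z =>
    (single_le_sum (fun z _ => t0 z) (mem_univ z)).trans (by linarith [F.ts p])
  have e : ∀ z, cut c β p z * cut c β p z = cut c t p z * (2 - cut c t p z) := fun z => by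
    unfold cut
    split_ifs
    · rw [← sq, F.bt]
    · simp
  rw [h2, show 4 * a = 2 * (2 * a) by ring, ← F.ts p, mul_sum univ _ 2]
  constructor <;> refine mul_le_mul_of_nonneg_left (sum_le_sum fun z _ => ?_) (Nat.cast_nonneg _) <;>
    nlinarith [e z, t0 z, t1 z]

theorem Fam.data2 (F : Fam y c t β ν a 8 j0) (hk : 9 ≤ k) (a0 : 0 < a) (a1 : a ≤ 1 / 2)
    (b0 : ∑ z, |cut c β 0 z| ≤ 2) (j : Fin 4 → ZMod k) (d0 : ∀ n, j n ≠ 0)
    (d1 : ∀ n n', j n ≠ -j n') (d2 : Function.Injective j)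
    (z2 : kp y c β (j 2) 2 = 0) (z3 : kp y c β (j 3) 1 = 0)
    (s2 : cq y c t (j 2) 1 ≤ cq y c t (j 2) 2) (s3 : cq y c t (j 3) 2 ≤ cq y c t (j 3) 1) :
    ∃ (U W N : ZMod k → Fin 3 → Fin 3 → ℝ) (μ : ℝ), 0 < μ ∧ (∀ j, U (-j) = U j) ∧
      (∀ j, W (-j) = W j) ∧ U 0 = 0 ∧ W 0 = 0 ∧
      (∀ j p e f, U j p e * U j p f + kp y c β j p ^ 2 * (W j p e * W j p f) =
        if e = f then N j p e else 0) ∧
      (∀ j p e f, kp y c β j p ^ 2 = 0 ∨ U j p e * W j p f - W j p e * U j p f = Jm p e f) ∧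
      (∀ j e, ∑ p, N j p e = 2 * k - 4 * a + (if j = 0 then k * (-2 : ℝ) else 0) +
        (cq y c t j (e + 1) + cq y c t j (e + 2))) ∧
      ∀ s e, μ ≤ ∑ j, mg (N j) s e := by
  classical
  have k9 : (9 : ℝ) ≤ k := by exact_mod_cast hk
  choose! U W N hG using good4 (c := 2 * k - 4) (by linarith)
  let Q : ZMod k → Fin 3 → ℝ := fun j e => 2 * k - 4 * a + (cq y c t j (e + 1) + cq y c t j (e + 2))
  let K : ZMod k → Fin 3 → ℝ := fun j p => kp y c β j p ^ 2
  have Qn : ∀ j, Q (-j) = Q j := fun j => by simp only [Q, cq_neg]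
  have Kn : ∀ j, K (-j) = K j := fun j => by simp only [K, kp_neg, neg_sq]
  have Qb : ∀ j e, 2 * k - 4 ≤ Q j e ∧ Q j e ≤ 2 * k - 4 + 4 := fun j e => by
    obtain ⟨b1, b2⟩ := abs_le.1 (F.cq_le j (e + 1))
    obtain ⟨b3, b4⟩ := abs_le.1 (F.cq_le j (e + 2))
    constructor <;> simp only [Q] <;> linarith
  have Qd : ∀ j e f, Q j e - Q j f ≤ 2 := fun j e f => by
    have b1 := sum3 (cq y c t j) e
    have b2 := sum3 (cq y c t j) f
    have b3 := (abs_le.1 (F.cq_le j e)).1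
    have b4 := (abs_le.1 (F.cq_le j f)).2
    simp only [Q]
    linarith
  have Ge : ∀ i, gq (Q i) (K i) = Q i 0 * (cq y c t i 2 - cq y c t i 1) + K i 1 - K i 2 := fun i => by
    have e1 : Q i 1 = 2 * k - 4 * a + (cq y c t i 2 + cq y c t i 0) := rfl
    have e2 : Q i 2 = 2 * k - 4 * a + (cq y c t i 0 + cq y c t i 1) := rfl
    rw [gq, e1, e2]
    ring
  wlog hw : gq (Q (j 1)) (K (j 1)) ≤ gq (Q (j 0)) (K (j 0)) generalizing j
  · exact this (j ∘ Equiv.swap 0 1) (fun n => d0 _) (fun n n' => d1 _ _)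
      (d2.comp (Equiv.injective _)) z2 z3 s2 s3 (not_le.1 hw).le
  let τ : ZMod k → Fin 4 := fun i => if h : ∃ n, i = j n ∨ i = -j n then h.choose else
    if 0 ≤ gq (Q i) (K i) then 0 else 1
  have τ1 : ∀ i n, i = j n ∨ i = -j n → τ i = n := fun i n h => by
    have h' : ∃ n, i = j n ∨ i = -j n := ⟨n, h⟩
    simp only [τ, dif_pos h']
    rcases h'.choose_spec with h1 | h1 <;> rcases h with h | h
    · exact d2 (h1.symm.trans h)
    · exact absurd (h1.symm.trans h) (d1 _ _)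
    · exact absurd (h.symm.trans h1) (d1 _ _)
    · exact d2 (neg_injective (h1.symm.trans h))
  have τ2 : ∀ i, (¬∃ n, i = j n ∨ i = -j n) → τ i = if 0 ≤ gq (Q i) (K i) then 0 else 1 :=
    fun i h => by simp only [τ, dif_neg h]
  have τn : ∀ i, τ (-i) = τ i := fun i => by
    by_cases h : ∃ n, i = j n ∨ i = -j n
    · obtain ⟨n, h⟩ := h
      rw [τ1 i n h, τ1 (-i) n (h.symm.imp (fun h => by rw [h, neg_neg]) fun h => by rw [h])]
    · rw [τ2 i h, τ2 (-i) fun ⟨n, h'⟩ => h ⟨n, h'.symm.imp (fun h => neg_injective h)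
        fun h => by rw [← h, neg_neg]⟩, Qn, Kn]
  have τ3 : ∀ i n, n = 2 ∨ n = 3 → τ i = n → i = j n ∨ i = -j n := fun i n hn h => by
    by_cases h' : ∃ n, i = j n ∨ i = -j n
    · obtain ⟨n', h'⟩ := h'
      rwa [← h, τ1 i n' h']
    · rw [τ2 i h'] at h
      rcases hn with rfl | rfl <;> split_ifs at h <;> exact absurd h (by decide)
  have G := fun i => hG (τ i) (Q i) (K i) ⟨Qb i, fun p => ⟨sq_nonneg _, F.kp_le i p⟩, by
      have := pow_le_pow_left₀ (abs_nonneg _)
        (((abs_im_le_norm _).trans (ft_norm y (cut c β 0) i)).trans b0) 2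
      rw [sq_abs] at this
      exact this.trans (by norm_num),
    fun h => by rcases τ3 i 2 (Or.inl rfl) h with rfl | rfl <;> simp [K, kp_neg, z2],
    fun h => by rcases τ3 i 3 (Or.inr rfl) h with rfl | rfl <;> simp [K, kp_neg, z3]⟩
  refine ⟨fun i => if i = 0 then 0 else U (τ i) (Q i) (K i),
    fun i => if i = 0 then 0 else W (τ i) (Q i) (K i),
    fun i => if i = 0 then 0 else N (τ i) (Q i) (K i), min (k * a / 5) 1, by positivity,
    fun j => by simp only [neg_eq_zero, τn, Qn, Kn],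
    fun j => by simp only [neg_eq_zero, τn, Qn, Kn], if_pos rfl, if_pos rfl, fun j p e f => ?_,
    fun j p e f => ?_, fun j e => ?_, fun s e => ?_⟩
  · by_cases h : j = 0
    · simp [h]
    · simp only [if_neg h]
      exact (G j).1.gram p e f
  · by_cases h : j = 0
    · exact Or.inl (by rw [h, kp_zero]; norm_num)
    · simp only [if_neg h]
      exact (G j).1.wedge p e f
  · by_cases h : j = 0
    · simp only [h, if_true, F.cq_zero, Pi.zero_apply, sum_const_zero]
      ring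
    · simp only [if_neg h, (G j).1.col, Q, add_zero]
  by_cases se : s = 0 ∧ e = 0
  · obtain ⟨rfl, rfl⟩ := se
    refine (min_le_left _ _).trans (le_trans ?_ (sum_le_sum (f := fun i =>
      ((if i = j 0 then gq (Q (j 0)) (K (j 0)) else 0) +
        (if i = -j 0 then gq (Q (j 0)) (K (j 0)) else 0) -
        (if i = j 1 then gq (Q (j 1)) (K (j 1)) else 0) -
        if i = -j 1 then gq (Q (j 1)) (K (j 1)) else 0) + K i 0 - (K i 1 + K i 2) / 5)
      fun i _ => ?_))
    · simp only [sum_add_distrib, sum_sub_distrib, sum_ite_eq', mem_univ, if_true, ← sum_div, K]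
      have := mul_pos (show (0 : ℝ) < k by linarith) a0
      linarith [(F.kp_sum a1 0).1, (F.kp_sum a1 1).2, (F.kp_sum a1 2).2]
    · by_cases h : i = 0
      · have n1 := fun n => (d0 n).symm
        have n2 : ∀ n, 0 ≠ -j n := fun n h => d0 n (neg_eq_zero.1 h.symm)
        simp [h, n1, n2, K, kp_zero, mg, dd]
      simp only [if_neg h]
      refine le_trans ?_ (G i).2
      refine sub_le_sub_right (add_le_add_left ?_ _) _
      have q0 : ∀ i, 0 ≤ Q i 0 := fun i => by linarith [(Qb i 0).1]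
      have n1 : ∀ n n', n ≠ n' → j n ≠ j n' := fun n n' h => d2.ne h
      have n2 : ∀ n n', -j n ≠ j n' := fun n n' h => d1 n' n h.symm
      have n3 : ∀ n n', n ≠ n' → -j n ≠ -j n' := fun n n' h => neg_injective.ne (d2.ne h)
      have g2 : 0 ≤ gq (Q (j 2)) (K (j 2)) := by
        rw [Ge]
        simp only [K, z2]
        nlinarith [mul_nonneg (q0 (j 2)) (sub_nonneg.2 s2), sq_nonneg (kp y c β (j 2) 1)]
      have g3 : gq (Q (j 3)) (K (j 3)) ≤ 0 := by
        rw [Ge]
        simp only [K, z3]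
        nlinarith [mul_nonneg (q0 (j 3)) (sub_nonneg.2 s3), sq_nonneg (kp y c β (j 3) 2)]
      by_cases h' : ∃ n, i = j n ∨ i = -j n
      · obtain ⟨n, h'⟩ := h'
        rw [τ1 i n h']
        rcases h' with rfl | rfl <;> fin_cases n <;>
          simp [sg4, n1, n2, n3, d1, Qn, Kn, g2, g3]
      · rw [τ2 i h']
        simp only [not_exists, not_or] at h'
        simp only [if_neg (h' _).1, if_neg (h' _).2]
        split_ifs with g <;> simp [sg4] <;> linarith
  · obtain ⟨n, hn⟩ : ∃ n, pi4 n s = e := by revert s e; decide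
    refine (min_le_right _ _).trans (le_trans ?_ (sum_le_sum (f := fun i => -(8 * (k : ℝ)) +
      (if i = 0 then 8 * (k : ℝ) else 0) +
      (if i = j n then 2 * (2 * (k : ℝ) - 5) * (2 * k - 6) - 4 + 8 * k else 0) +
      if i = -j n then 2 * (2 * (k : ℝ) - 5) * (2 * k - 6) - 4 + 8 * k else 0) fun i _ => ?_))
    · simp only [sum_add_distrib, sum_ite_eq', mem_univ, if_true, sum_const, card_univ, ZMod.card,
        nsmul_eq_mul]
      nlinarith
    · obtain ⟨m1, m2⟩ := (G i).1.mg_ge zero_le_one (by linarith) (Qb i) (Qd i) s e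
      by_cases h : i = 0
      · have n2 : 0 ≠ -j n := fun h => d0 n (neg_eq_zero.1 h.symm)
        simp [h, (d0 n).symm, n2, mg, dd]
      simp only [if_neg h]
      by_cases h1 : i = j n
      · have := m2 (by rw [τ1 i n (Or.inl h1), hn])
        rw [if_pos h1, if_neg (h1 ▸ d1 n n)]
        linarith
      · by_cases h2 : i = -j n
        · have := m2 (by rw [τ1 i n (Or.inr h2), hn])
          rw [if_neg h1, if_pos h2]
          linarith
        · rw [if_neg h1, if_neg h2]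
          linarith

end fam

theorem pair_cq {I : Type} [Fintype I] (n : I → ℕ) (c : I → Fin 3) (t : I → ℝ) (j : ZMod k)
    (p : Fin 3) : cq (fun z : I × Bool => if z.2 then (n z.1 : ZMod k) else -(n z.1 : ZMod k))
      (fun z => c z.1) (fun z => t z.1) j p =
      ∑ i, 2 * (cut c t p i * (ch (j * (n i : ZMod k))).re) := by
  rw [cq, ft, Fintype.sum_prod_type, re_sum]
  refine sum_congr rfl fun i _ => ?_
  simp only [cut, Fintype.sum_bool, if_true, Bool.false_eq_true, if_false, mul_neg, ch_neg]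
  split_ifs <;> simp
  ring

theorem pair_kp {I : Type} [Fintype I] (n : I → ℕ) (c : I → Fin 3) (β : I → ℝ) (j : ZMod k)
    (p : Fin 3) : kp (fun z : I × Bool => if z.2 then (n z.1 : ZMod k) else -(n z.1 : ZMod k))
      (fun z => c z.1) (fun z => if z.2 then β z.1 else -β z.1) j p =
      ∑ i, 2 * (cut c β p i * (ch (j * (n i : ZMod k))).im) := by
  rw [kp, ft, Fintype.sum_prod_type, im_sum]
  refine sum_congr rfl fun i _ => ?_
  simp only [cut, Fintype.sum_bool, if_true, Bool.false_eq_true, if_false, mul_neg, ch_neg]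
  split_ifs <;> simp
  ring

theorem ch_re (m : ℕ) : (ch (m : ZMod k)).re = Real.cos (2 * Real.pi * m / k) := by
  have := ZMod.stdAddChar_coe (N := k) (m : ℤ)
  rw [Int.cast_natCast] at this
  rw [ch, this, ← exp_ofReal_mul_I_re]
  congr 2
  push_cast
  ring

theorem ch_pos {x : ZMod k} (m : ℕ) (h : x = m ∨ x = -m) (hm : 4 * m ≤ k) : 0 ≤ (ch x).re := by
  have k0 : (0 : ℝ) < k := by exact_mod_cast NeZero.pos k
  have m1 : (4 * m : ℝ) ≤ k := by exact_mod_cast hm
  have : 0 ≤ (ch (m : ZMod k)).re := by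
    rw [ch_re]
    refine Real.cos_nonneg_of_mem_Icc ⟨le_trans (by linarith [Real.pi_pos]) (show 0 ≤ _ by
      positivity), ?_⟩
    rw [div_le_iff₀ k0]
    nlinarith [Real.pi_pos]
  rcases h with rfl | rfl
  · exact this
  · rwa [ch_neg, conj_re]

theorem ch_nonpos {x : ZMod k} (m : ℕ) (h : x = m) (hm : k ≤ 4 * m) (hm' : 4 * m ≤ 3 * k) :
    (ch x).re ≤ 0 := by
  have k0 : (0 : ℝ) < k := by exact_mod_cast NeZero.pos k
  have m1 : (k : ℝ) ≤ 4 * m := by exact_mod_cast hm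
  have m2 : (4 * m : ℝ) ≤ 3 * k := by exact_mod_cast hm'
  rw [h, ch_re]
  refine Real.cos_nonpos_of_pi_div_two_le_of_le ?_ ?_
  · rw [le_div_iff₀ k0]
    nlinarith [Real.pi_pos]
  · rw [div_le_iff₀ k0]
    nlinarith [Real.pi_pos]

theorem abs_sum_sq {b b' t a : ℝ} (e1 : b ^ 2 = t * (2 - t)) (e2 : b' ^ 2 = (a - t) * (2 - (a - t)))
    (a1 : a ≤ 1 / 2) : (2 * (|b| + |b'|)) ^ 2 ≤ 8 := by
  nlinarith [sq_abs b, sq_abs b', sq_nonneg (|b| - |b'|), sq_nonneg t, sq_nonneg (a - t)]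

theorem core9 {a : ℝ} (a0 : 0 < a) (a1 : a ≤ 1 / 2) :
    ∃ (v : Fin 4 → ZMod (8 + 1) → Fin 3 → {j : ZMod (8 + 1) // j ≠ 0} × Fin 4 → ℝ) (η μ L : ℝ),
      0 < η ∧ 0 < μ ∧ Core v (2 * (8 + 1 : ℕ) - 2 - 4 * a) η μ L := by
  obtain ⟨t, b, b', t0, t1, e1, e2, e3⟩ := split_angle (ch ((1 : ZMod 9) * ((1 : ℕ) : ZMod 9))).im
    (ch ((1 : ZMod 9) * ((2 : ℕ) : ZMod 9))).im a0.le a1
  obtain ⟨r, e0⟩ : ∃ r : ℝ, r ^ 2 = a * (2 - a) := ⟨_, Real.sq_sqrt (by nlinarith)⟩
  have r1 := abs_le_one_of e0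
  have r2 := abs_le_one_of e1
  have r3 := abs_le_one_of e2
  have r4 := abs_sum_sq e1 e2 a1
  have r5 : (2 * |r|) ^ 2 ≤ 8 := by nlinarith [abs_nonneg r]
  have F := pairFam (k := 9) ![4, 1, 2, 3] ![0, 1, 1, 2] ![a, t, a - t, a] ![r, b, b', r] (a := a)
    (κ0 := 8) (j0 := 0) (by decide) (by decide) (by decide)
    (fun i => by fin_cases i <;> simp <;> linarith) (fun i => by fin_cases i <;> simpa)
    (fun p => by fin_cases p <;> simp [cut, Fin.sum_univ_four])
    (fun p => by fin_cases p <;> simpa [cut, Fin.sum_univ_four])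
    (fun p => by simp [ch_zero]) (by simp [Fin.sum_univ_four]; linarith)
  obtain ⟨U, W, N, μ, μ0, b1, b2, b3, b4, b5, b6, b7, b8⟩ := F.data2 le_rfl a0 a1
    (by simp [cut, Fintype.sum_prod_type, Fin.sum_univ_four]; linarith) ![2, 4, 3, 1]
    (by decide) (by decide) (by decide)
    (by
      rw [pair_kp]
      have : (3 : ZMod 9) * 3 = 0 := by decide
      simp [cut, Fin.sum_univ_four, this, ch_zero])
    (by
      rw [pair_kp]
      simp [cut, Fin.sum_univ_four] at e3 ⊢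
      linarith)
    ((le_of_abs_le (F.cq_le _ _)).trans_eq (by
      rw [pair_cq]
      have : (3 : ZMod 9) * 3 = 0 := by decide
      simp [cut, Fin.sum_univ_four, this, ch_zero]))
    (by
      rw [pair_cq, pair_cq]
      have c1 := mul_nonneg t0 (ch_pos (x := (1 : ZMod 9)) 1 (by decide) (by decide))
      have c2 := mul_nonneg (sub_nonneg.2 t1) (ch_pos (x := (2 : ZMod 9)) 2 (by decide) (by decide))
      have c3 := mul_nonpos_of_nonneg_of_nonpos a0.le
        (ch_nonpos (x := (3 : ZMod 9)) 3 (by decide) (by decide) (by decide))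
      simp [cut, Fin.sum_univ_four]
      linarith)
  obtain ⟨v, L, C⟩ := F.core b1 b2 b3 b4 b5 b6 b7 b8
  exact ⟨v, _, _, L, sub_pos.2 F.gap, div_pos μ0 (by norm_num), C⟩

theorem core11 {a : ℝ} (a0 : 0 < a) (a1 : a ≤ 1 / 2) :
    ∃ (v : Fin 4 → ZMod (10 + 1) → Fin 3 → {j : ZMod (10 + 1) // j ≠ 0} × Fin 4 → ℝ) (η μ L : ℝ),
      0 < η ∧ 0 < μ ∧ Core v (2 * (10 + 1 : ℕ) - 2 - 4 * a) η μ L := by
  obtain ⟨t, b, b', t0, t1, e1, e2, e3⟩ := split_angle (ch ((3 : ZMod 11) * 4)).im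
    (ch ((3 : ZMod 11) * 3)).im a0.le a1
  obtain ⟨s, d, d', s0, s1, f1, f2, f3⟩ := split_angle (ch (1 : ZMod 11)).im
    (ch (2 : ZMod 11)).im a0.le a1
  obtain ⟨r, e0⟩ : ∃ r : ℝ, r ^ 2 = a * (2 - a) := ⟨_, Real.sq_sqrt (by nlinarith)⟩
  have r1 := abs_le_one_of e0
  have r2 := abs_le_one_of e1
  have r3 := abs_le_one_of e2
  have r4 := abs_sum_sq e1 e2 a1
  have r5 : (2 * |r|) ^ 2 ≤ 8 := by nlinarith [abs_nonneg r]
  have r6 := abs_le_one_of f1
  have r7 := abs_le_one_of f2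
  have r8 := abs_sum_sq f1 f2 a1
  have F := pairFam (k := 11) ![5, 4, 3, 1, 2] ![0, 1, 1, 2, 2] ![a, t, a - t, s, a - s]
    ![r, b, b', d, d'] (a := a) (κ0 := 8) (j0 := 0) (by decide) (by decide) (by decide)
    (fun i => by fin_cases i <;> simp <;> linarith) (fun i => by fin_cases i <;> simpa)
    (fun p => by fin_cases p <;> simp [cut, Fin.sum_univ_five])
    (fun p => by fin_cases p <;> simpa [cut, Fin.sum_univ_five])
    (fun p => by simp [ch_zero]) (by simp [Fin.sum_univ_five]; linarith)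
  obtain ⟨U, W, N, μ, μ0, b1, b2, b3, b4, b5, b6, b7, b8⟩ := F.data2 (by norm_num) a0 a1
    (by simp [cut, Fintype.sum_prod_type, Fin.sum_univ_five]; linarith) ![2, 4, 1, 3]
    (by decide) (by decide) (by decide)
    (by
      rw [pair_kp]
      simp [cut, Fin.sum_univ_five]
      linarith)
    (by
      rw [pair_kp]
      simp [cut, Fin.sum_univ_five]
      linarith)
    (by
      rw [pair_cq, pair_cq]
      have c1 := mul_nonneg s0 (ch_pos (x := (1 : ZMod 11)) 1 (by decide) (by decide))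
      have c2 := mul_nonneg (sub_nonneg.2 s1) (ch_pos (x := (2 : ZMod 11)) 2 (by decide) (by decide))
      have c3 := mul_nonpos_of_nonneg_of_nonpos t0
        (ch_nonpos (x := (4 : ZMod 11)) 4 (by decide) (by decide) (by decide))
      have c4 := mul_nonpos_of_nonneg_of_nonpos (sub_nonneg.2 t1)
        (ch_nonpos (x := (3 : ZMod 11)) 3 (by decide) (by decide) (by decide))
      simp [cut, Fin.sum_univ_five]
      linarith)
    (by
      rw [pair_cq, pair_cq]
      have c1 := mul_nonneg t0 (ch_pos (x := (3 : ZMod 11) * 4) 1 (by decide) (by decide))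
      have c2 := mul_nonneg (sub_nonneg.2 t1)
        (ch_pos (x := (3 : ZMod 11) * 3) 2 (by decide) (by decide))
      have c3 := mul_nonpos_of_nonneg_of_nonpos s0
        (ch_nonpos (x := (3 : ZMod 11)) 3 (by decide) (by decide) (by decide))
      have c4 := mul_nonpos_of_nonneg_of_nonpos (sub_nonneg.2 s1)
        (ch_nonpos (x := (3 : ZMod 11) * 2) 6 (by decide) (by decide) (by decide))
      simp [cut, Fin.sum_univ_five]
      linarith)
  obtain ⟨v, L, C⟩ := F.core b1 b2 b3 b4 b5 b6 b7 b8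
  exact ⟨v, _, _, L, sub_pos.2 F.gap, div_pos μ0 (by norm_num), C⟩

theorem lowOdd {d : ℕ} (hd : d = 8 ∨ d = 10) {α : ℝ} (h0 : 0 < α)
    (h1 : (1 - α) / (2 * α) < d) (h2 : d ≤ (1 - α) / (2 * α) + 1) {η : ℝ} (hη : 0 < η) :
    ∃ m0 : ℕ, ∀ m, m0 ≤ m → ∃ (v : ℕ) (U : Fin v → Submodule ℝ (EuclideanSpace ℝ (Fin m))),
      ((∀ i, Module.finrank ℝ (U i) = 3) ∧ ∀ i j, i ≠ j → ∀ u ∈ U i,
        ‖(U j).starProjection u‖ ^ 2 = α ^ 2 * ‖u‖ ^ 2) ∧
      (d + 1) / d * (m : ℝ) ≤ (1 + η) ^ 4 * v := by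
  have d7 : 7 ≤ d := by omega
  have d8 : (7 : ℝ) ≤ d := by exact_mod_cast d7
  obtain ⟨v, η', μ, L, η0, μ0, C⟩ : ∃ (v : Fin 4 → ZMod (d + 1) → Fin 3 →
      {j : ZMod (d + 1) // j ≠ 0} × Fin 4 → ℝ) (η μ L : ℝ), 0 < η ∧ 0 < μ ∧
      Core v (2 * (d + 1 : ℕ) - 2 - 4 * ((d - (1 - α) / (2 * α)) / 2)) η μ L := by
    rcases hd with rfl | rfl
    · exact core9 (by linarith) (by linarith)
    · exact core11 (by linarith) (by linarith)
  have := low1 (by omega) C (by simp [Fintype.card_subtype_compl, mul_comm])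
    (by push_cast; linarith) η0 μ0 hη
  rwa [show 1 / (1 + (2 * ((d + 1 : ℕ) : ℝ) - 2 - 4 * ((d - (1 - α) / (2 * α)) / 2))) = α by
    push_cast
    rw [div_eq_iff (by linarith)]
    field_simp
    ring] at this

end Pool.Agent.P.MP_c2263a_gt.All
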